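import Pool.Agent.H18.TF.Defs

/-!
# Families of Kähler manifolds with one holomorphic two-form, and pairs over their bases

Let `B` be a complex manifold of dimension `n` and let `f : Y → B` be a smooth family of compact Kähler
manifolds whose fibres have exactly one holomorphic two-form up to constant factors, for instance a
family of K3 surfaces or of compact hyperkähler manifolds. Over the sets `U i` of a suitable open covering
of `B` the lattice `H²(Y_p, ℤ) / torsion` of the fibre is identified with `ℤ^r`, and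
there is a holomorphic two-form `ω i` without zeros as a section of `λ = f_* Ω²_{Y/B}`; its class in `ℂ^r`
is the period vector `σ i p`, a holomorphic function of `p ∈ U i`. On `U i ∩ U j` we have
`ω i = t i j ω j` with a holomorphic function `t i j` without zeros, and the identifications of the
lattices differ by `γ i j ∈ GL_r(ℤ)`, so `σ i = t i j γ i j (σ j)`. The functions `t i j` are the
transition functions of the line bundle `λ` on `B`. If the fibres are hyperkähler manifolds of dimension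
`2 e`, then `K_{Y/B} = f^* λ^e`, since the `e`-th power of a holomorphic symplectic form has no zeros.
-/

set_option autoImplicit false

namespace H18.HK

open Matrix Topology H18.TF
open scoped Manifold ContDiff

universe u v w x

/-- The value at two complex vectors of the bilinear form with the real matrix `S`. -/
noncomputable def rf {r : ℕ} (S : Matrix (Fin r) (Fin r) ℝ) (x y : Fin r → ℂ) : ℂ :=
  x ⬝ᵥ (S.map (algebraMap ℝ ℂ) *ᵥ y)

/-- The complex vector with the given real coordinates. -/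
def cx {r : ℕ} (x : Fin r → ℝ) : Fin r → ℂ := fun a => (x a : ℂ)

section

variable (n : ℕ) (B : Type u) [TopologicalSpace B] [ChartedSpace (Fin n → ℂ) B]

/-- The period vectors of a family of compact Kähler manifolds with one holomorphic two-form over the
complex manifold `B` of dimension `n`, over the sets `U i` of an open covering of `B`: the lattice is
`ℤ^r`, the period vector of the two-form `ω i` is `σ i p`, and over `U i ∩ U j` the vector `σ j p` is
mapped to `σ i p` by the matrix `γ i j p` in `GL_r(ℤ)` and the factor `t i j p`. -/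
structure PeriodFamily (r : ℕ) (ι : Type v) where
  U : ι → Set B
  isOpen : ∀ i, IsOpen (U i)
  cover : ∀ p : B, ∃ i, p ∈ U i
  σ : ι → B → Fin r → ℂ
  t : ι → ι → B → ℂ
  γ : ι → ι → B → Matrix (Fin r) (Fin r) ℤ
  holo_σ : ∀ i a, Holo (n := n) (U i) fun p => σ i p a
  holo_t : ∀ i j, Holo (n := n) (U i ∩ U j) (t i j)
  t_ne_zero : ∀ i j, ∀ p ∈ U i ∩ U j, t i j p ≠ 0
  det_γ : ∀ i j, ∀ p ∈ U i ∩ U j, IsUnit (γ i j p).det
  cocycle_t : ∀ i j k, ∀ p ∈ U i ∩ U j ∩ U k, t i j p * t j k p = t i k p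
  cocycle_γ : ∀ i j k, ∀ p ∈ U i ∩ U j ∩ U k, γ i j p * γ j k p = γ i k p
  change : ∀ i j, ∀ p ∈ U i ∩ U j,
    σ i p = t i j p • ((γ i j p).map (Int.castRingHom ℂ) *ᵥ σ j p)

variable {n} {B}

namespace PeriodFamily

variable {r : ℕ} {ι : Type v} (Y : PeriodFamily n B r ι)

/-- The real symmetric matrices `S i p` and the real vectors `κ i p` define a real polarization of the
family: a flat real symmetric bilinear form on the second cohomology of the fibres and a flat real class
`κ`, such that the period vector `σ` is isotropic and orthogonal to `κ`, `S(σ, conj σ) > 0`, and `S` is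
negative definite on the real vectors which are orthogonal to `κ` and to `σ`. (Let the total space `Y` be
a Kähler manifold, let `d` be the dimension of the fibres and let `κ` be the class of the Kähler form in
`H²(Y_p, ℝ)`. Then `κ` and the form `S(x, y) = ∫ x ∧ y ∧ κ ^ (d - 2)` are a real polarization, by the
bilinear relations of Hodge and Riemann. For hyperkähler manifolds one may also take the form of Beauville
and Bogomolov. Neither `κ` nor `S` need be rational, and the fibres need not be algebraic. No condition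
on `S(κ, κ)` is needed; if `S` has the signature `(2, r - 2)` one may take `κ = 0`.) -/
structure IsPolarization (S : ι → B → Matrix (Fin r) (Fin r) ℝ) (κ : ι → B → Fin r → ℝ) :
    Prop where
  flat : ∀ i, ∀ p ∈ Y.U i, ∀ᶠ p' in 𝓝 p, S i p' = S i p ∧ κ i p' = κ i p
  eq_S : ∀ i j, ∀ p ∈ Y.U i ∩ Y.U j,
    ((Y.γ i j p).map (Int.castRingHom ℝ))ᵀ * S i p * (Y.γ i j p).map (Int.castRingHom ℝ) = S j p
  eq_κ : ∀ i j, ∀ p ∈ Y.U i ∩ Y.U j, κ i p = (Y.γ i j p).map (Int.castRingHom ℝ) *ᵥ κ j p
  symm : ∀ i, ∀ p ∈ Y.U i, (S i p)ᵀ = S i p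
  isotropic : ∀ i, ∀ p ∈ Y.U i, rf (S i p) (Y.σ i p) (Y.σ i p) = 0
  positive : ∀ i, ∀ p ∈ Y.U i, 0 < (rf (S i p) (Y.σ i p) (star (Y.σ i p))).re
  orthogonal : ∀ i, ∀ p ∈ Y.U i, rf (S i p) (cx (κ i p)) (Y.σ i p) = 0
  negative : ∀ i, ∀ p ∈ Y.U i, ∀ x : Fin r → ℝ, x ≠ 0 → x ⬝ᵥ (S i p *ᵥ κ i p) = 0 →
    rf (S i p) (cx x) (Y.σ i p) = 0 → x ⬝ᵥ (S i p *ᵥ x) < 0

/-- The functions `s i` define a global section of the power `M ^ N` of the line bundle `M` on `B` which
is trivial over the open sets `U i` and has the transition functions `μ i j`. -/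
structure IsSectionOf (μ : ι → ι → B → ℂ) (N : ℕ) (s : ι → B → ℂ) : Prop where
  holo : ∀ i, Holo (n := n) (Y.U i) (s i)
  eq : ∀ i j, ∀ p ∈ Y.U i ∩ Y.U j, s i p * μ i j p ^ N = s j p

/-- The power `M ^ N` of the line bundle `M` on `B` with the transition functions `μ i j` is generated
by its global sections at the points of `Z`: for each of them there is a global section on `B` which
does not vanish there. -/
def IsGeneratedOf (μ : ι → ι → B → ℂ) (N : ℕ) (Z : Set B) : Prop :=
  ∀ p ∈ Z, ∃ s, Y.IsSectionOf μ N s ∧ ∀ i, p ∈ Y.U i → s i p ≠ 0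

end PeriodFamily

variable {r : ℕ} {ι : Type v}

/-- A holomorphic map `π : X → B` from a complex manifold `X` of dimension `k`, and an effective divisor
`D` on `X`, given by the local equations `f a` on the sets `W a` of an open covering of `X` with
`π (W a) ⊆ U (idx a)`; on `W a ∩ W a'` the equations differ by the function `ε a a'` without zeros. -/
structure PairMap (Y : PeriodFamily n B r ι) (k : ℕ) (X : Type w) [TopologicalSpace X]
    [ChartedSpace (Fin k → ℂ) X] (α : Type x) where
  π : X → B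
  W : α → Set X
  idx : α → ι
  f : α → X → ℂ
  ε : α → α → X → ℂ
  holo_π : MDifferentiable 𝓘(ℂ, Fin k → ℂ) 𝓘(ℂ, Fin n → ℂ) π
  isOpen : ∀ a, IsOpen (W a)
  cover : ∀ p, ∃ a, p ∈ W a
  mem : ∀ a, ∀ p ∈ W a, π p ∈ Y.U (idx a)
  holo_f : ∀ a, Holo (n := k) (W a) (f a)
  holo_ε : ∀ a a', Holo (n := k) (W a ∩ W a') (ε a a')
  ε_ne_zero : ∀ a a', ∀ p ∈ W a ∩ W a', ε a a' p ≠ 0
  dense : ∀ a, W a ⊆ closure {p | p ∈ W a ∧ f a p ≠ 0}
  compat : ∀ a a', ∀ p ∈ W a ∩ W a', f a p = ε a a' p * f a' p

namespace PairMap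

variable {Y : PeriodFamily n B r ι} {k : ℕ} {X : Type w} [TopologicalSpace X]
  [ChartedSpace (Fin k → ℂ) X] {α : Type x} (h : PairMap Y k X α)

/-- The functions `τ a ψ` define an isomorphism of the line bundles `π^* M` and `K_X ^ m ⊗ O(D)` on `X`,
where `M` is the line bundle on `B` with the transition functions `μ i j`: it maps the local generator of
`π^* M` on `W a` to the meromorphic form `(τ a ψ / f a) (dψ_1 ∧ ... ∧ dψ_k) ^ m`, for all charts `ψ` of
`X`. -/
structure IsAdjunction (μ : ι → ι → B → ℂ) (m : ℕ)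
    (τ : α → OpenPartialHomeomorph X (Fin k → ℂ) → X → ℂ) : Prop where
  holo : ∀ a, ∀ ψ ∈ atlas (Fin k → ℂ) X, Holo (n := k) (h.W a ∩ ψ.source) (τ a ψ)
  ne_zero : ∀ a, ∀ ψ ∈ atlas (Fin k → ℂ) X, ∀ p ∈ h.W a ∩ ψ.source, τ a ψ p ≠ 0
  chart : ∀ a, ∀ ψ ∈ atlas (Fin k → ℂ) X, ∀ ψ' ∈ atlas (Fin k → ℂ) X,
    ∀ p ∈ h.W a ∩ (ψ.source ∩ ψ'.source), τ a ψ p * jac ψ ψ' p ^ m = τ a ψ' p
  trans : ∀ a a', ∀ ψ ∈ atlas (Fin k → ℂ) X, ∀ p ∈ h.W a ∩ h.W a' ∩ ψ.source,
    τ a ψ p = h.ε a a' p * μ (h.idx a) (h.idx a') (h.π p) * τ a' ψ p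

/-- The functions `G a ψ` define a global section of the `N`-th power of the line bundle
`K_X ^ m ⊗ O(D)` on `X`: the meromorphic forms `(G a ψ / (f a) ^ N) (dψ_1 ∧ ... ∧ dψ_k) ^ (m N)` agree. -/
structure IsLogPluricanonical (m N : ℕ)
    (G : α → OpenPartialHomeomorph X (Fin k → ℂ) → X → ℂ) : Prop where
  holo : ∀ a, ∀ ψ ∈ atlas (Fin k → ℂ) X, Holo (n := k) (h.W a ∩ ψ.source) (G a ψ)
  chart : ∀ a, ∀ ψ ∈ atlas (Fin k → ℂ) X, ∀ ψ' ∈ atlas (Fin k → ℂ) X,
    ∀ p ∈ h.W a ∩ (ψ.source ∩ ψ'.source), G a ψ p * jac ψ ψ' p ^ (m * N) = G a ψ' p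
  trans : ∀ a a', ∀ ψ ∈ atlas (Fin k → ℂ) X, ∀ p ∈ h.W a ∩ h.W a' ∩ ψ.source,
    G a ψ p = h.ε a a' p ^ N * G a' ψ p

/-- The `N`-th power of the line bundle `K_X ^ m ⊗ O(D)` on `X` is generated by its global sections at
the points over `Z`: for each of them there is a global section on `X` which does not vanish there. -/
def IsGenerated (m N : ℕ) (Z : Set B) : Prop :=
  ∀ p : X, h.π p ∈ Z → ∃ G, h.IsLogPluricanonical m N G ∧
    ∀ a, p ∈ h.W a → G a (chartAt (Fin k → ℂ) p) p ≠ 0

end PairMap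

end

end H18.HK
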