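import Pool.Agent.H18.TF.Eis

/-!
# Sums of negative powers of complex numbers
-/

set_option autoImplicit false

namespace H18.HK

open Matrix Set Filter Topology H18.TF

/-- Some sum of the negative powers of a family of complex numbers does not vanish. -/
theorem exists_tsum_ne_zero {I : Type*} [Nonempty I] (a : I → ℂ) (ha : ∀ i, a i ≠ 0) {N : ℕ}
    (hsum : Summable fun i => ‖(a i)⁻¹ ^ N‖) (K : ℕ) : ∃ k ≥ K, ∑' i, (a i)⁻¹ ^ k ≠ 0 := by
  classical
  have hpos : ∀ i, 0 < ‖a i‖ := fun i => norm_pos_iff.2 (ha i)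
  -- the minimum of the moduli
  obtain ⟨Q, hQ⟩ : ∃ Q : I, ∀ P : I, ‖a Q‖ ≤ ‖a P‖ := by
    obtain ⟨P₁⟩ : Nonempty I := inferInstance
    have hfin : {P : I | ‖a P‖ ≤ ‖a P₁‖}.Finite := by
      have h1 := hsum.tendsto_cofinite_zero
      have h2 : ∀ᶠ P in cofinite, ‖(a P)⁻¹ ^ N‖ < ‖(a P₁)⁻¹ ^ N‖ := by
        refine h1.eventually (gt_mem_nhds ?_)
        rw [norm_pow, norm_inv]
        exact pow_pos (inv_pos.2 (hpos P₁)) N
      refine Set.Finite.subset h2 fun P hP => ?_
      rw [Set.mem_compl_iff]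
      intro hlt
      have hlt' : ‖(a P)⁻¹ ^ N‖ < ‖(a P₁)⁻¹ ^ N‖ := hlt
      rw [norm_pow, norm_inv, norm_pow, norm_inv] at hlt'
      have h3 : ‖a P₁‖⁻¹ ≤ ‖a P‖⁻¹ := inv_anti₀ (hpos P) hP
      exact absurd (pow_le_pow_left₀ (inv_nonneg.2 (norm_nonneg _)) h3 N) (not_le.2 hlt')
    obtain ⟨Q, hQ1, hQ2⟩ := hfin.exists_minimalFor (fun P : I => ‖a P‖) _
      ⟨P₁, le_refl ‖a P₁‖⟩
    refine ⟨Q, fun P => ?_⟩
    by_cases hP : ‖a P‖ ≤ ‖a P₁‖
    · by_contra hlt
      exact hlt (hQ2 hP (not_le.1 hlt).le)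
    · exact le_trans hQ1 (not_le.1 hP).le
  set r := ‖a Q‖ with hr
  have hr0 : 0 < r := hpos Q
  set u : I → ℂ := fun P => (r : ℂ) * (a P)⁻¹ with hu
  have hu1 : ∀ P, ‖u P‖ ≤ 1 := by
    intro P
    rw [hu]
    simp only [norm_mul, norm_inv, Complex.norm_real, Real.norm_eq_abs, abs_of_pos hr0]
    rw [← div_eq_mul_inv, div_le_one (hpos P)]
    exact hQ P
  have hsumN : Summable fun P => ‖u P ^ N‖ := by
    have : (fun P => ‖u P ^ N‖) = fun P => r ^ N * ‖(a P)⁻¹ ^ N‖ := by
      funext P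
      rw [hu]
      simp only [mul_pow, norm_mul, norm_pow, Complex.norm_real, Real.norm_eq_abs, abs_of_pos hr0]
    rw [this]
    exact hsum.mul_left _
  set M : Set (I) := {P | ‖u P‖ = 1} with hM
  have hMfin : M.Finite := by
    have h2 : ∀ᶠ P in cofinite, ‖u P ^ N‖ < 1 :=
      hsumN.tendsto_cofinite_zero.eventually (gt_mem_nhds one_pos)
    refine Set.Finite.subset h2 fun P hP => ?_
    rw [Set.mem_compl_iff]
    intro hlt
    have hlt' : ‖u P ^ N‖ < 1 := hlt
    rw [norm_pow, (show ‖u P‖ = 1 from hP), one_pow] at hlt'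
    exact lt_irrefl _ hlt'
  -- the part outside `M` is small
  have hsmall : Tendsto (fun k : ℕ => ∑' P : I, if P ∈ M then (0 : ℂ) else u P ^ k) atTop
      (𝓝 0) := by
    have := tendsto_tsum_of_dominated_convergence (𝓕 := (atTop : Filter ℕ))
      (f := fun (k : ℕ) P => if P ∈ M then (0 : ℂ) else u P ^ k)
      (g := fun _ => (0 : ℂ)) (bound := fun P => ‖u P ^ N‖) hsumN ?_ ?_
    · simpa using this
    · intro P
      by_cases hP : P ∈ M
      · simp only [hP, if_true]
        exact tendsto_const_nhds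
      · simp only [hP, if_false]
        exact tendsto_pow_atTop_nhds_zero_of_norm_lt_one (lt_of_le_of_ne (hu1 P) hP)
    · filter_upwards [eventually_ge_atTop N] with k hk P
      split_ifs
      · rw [norm_zero]; exact norm_nonneg _
      · rw [norm_pow, norm_pow]
        exact pow_le_pow_of_le_one (norm_nonneg _) (hu1 P) hk
  obtain ⟨K₁, hK₁⟩ := Filter.eventually_atTop.1
    (hsmall.eventually (Metric.ball_mem_nhds (0 : ℂ) (show (0 : ℝ) < 1 / 2 by norm_num)))
  have : Finite M := hMfin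
  obtain ⟨k, hk, hnear⟩ := exists_pow_near_one (fun P : M => u P) (fun P => P.2)
    (show (0 : ℝ) < 1 / 2 by norm_num) (max (max K N) K₁)
  have hkK : K ≤ k := le_trans (le_trans (le_max_left _ _) (le_max_left _ _)) hk
  have hkN : N ≤ k := le_trans (le_trans (le_max_right _ _) (le_max_left _ _)) hk
  have hkK₁ : K₁ ≤ k := le_trans (le_max_right _ _) hk
  refine ⟨k, hkK, fun h0 => ?_⟩
  have hsumk : Summable fun P => u P ^ k :=
    Summable.of_norm_bounded hsumN fun P => by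
      rw [norm_pow, norm_pow]
      exact pow_le_pow_of_le_one (norm_nonneg _) (hu1 P) hkN
  have h1 : ∑' P : I, u P ^ k = 0 := by
    have : (fun P : I => u P ^ k) = fun P : I => (r : ℂ) ^ k * (a P)⁻¹ ^ k := by
      funext P; rw [hu]; simp only [mul_pow]
    rw [this, tsum_mul_left]
    have h2 : ∑' P : I, (a P)⁻¹ ^ k = 0 := h0
    rw [h2, mul_zero]
  have hs1 : Summable fun P : I => if P ∈ M then u P ^ k else 0 :=
    summable_of_hasFiniteSupport (hMfin.subset fun P hP => by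
      by_contra hPM
      simp [hPM] at hP)
  have hs2 : Summable fun P : I => if P ∈ M then (0 : ℂ) else u P ^ k := by
    refine Summable.of_norm_bounded (g := fun P => ‖u P ^ N‖) hsumN fun P => ?_
    split_ifs
    · rw [norm_zero]; exact norm_nonneg _
    · rw [norm_pow, norm_pow]
      exact pow_le_pow_of_le_one (norm_nonneg _) (hu1 P) hkN
  have h2 : ∑' P : I, u P ^ k = (∑' P : I, if P ∈ M then u P ^ k else 0) +
      ∑' P : I, if P ∈ M then (0 : ℂ) else u P ^ k := by
    rw [← hs1.tsum_add hs2]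
    congr 1
    funext P
    split_ifs <;> simp
  have h3 : ‖∑' P : I, if P ∈ M then (0 : ℂ) else u P ^ k‖ < 1 / 2 := by
    have := hK₁ k hkK₁
    rwa [dist_zero_right] at this
  have h4 : (∑' P : I, if P ∈ M then u P ^ k else 0) = ∑ P ∈ hMfin.toFinset, u P ^ k := by
    rw [tsum_eq_sum (s := hMfin.toFinset)]
    · refine Finset.sum_congr rfl fun P hP => ?_
      rw [if_pos (hMfin.mem_toFinset.1 hP)]
    · intro P hP
      rw [if_neg fun h => hP (hMfin.mem_toFinset.2 h)]
  have h5 : (1 / 2 : ℝ) ≤ (∑ P ∈ hMfin.toFinset, u P ^ k).re := by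
    rw [Complex.re_sum]
    have hQM : Q ∈ hMfin.toFinset := by
      rw [hMfin.mem_toFinset]
      show ‖u Q‖ = 1
      rw [hu]
      simp only [norm_mul, norm_inv, Complex.norm_real, Real.norm_eq_abs, abs_of_pos hr0]
      exact mul_inv_cancel₀ hr0.ne'
    have h6 : ∀ P ∈ hMfin.toFinset, (1 / 2 : ℝ) ≤ (u P ^ k).re := by
      intro P hP
      have h7 := hnear ⟨P, hMfin.mem_toFinset.1 hP⟩
      have h8 := (Complex.abs_re_le_norm (u P ^ k - 1)).trans_lt h7
      rw [Complex.sub_re, Complex.one_re, abs_lt] at h8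
      linarith [h8.1]
    calc (1 / 2 : ℝ) ≤ (u Q ^ k).re := h6 Q hQM
      _ ≤ _ := Finset.single_le_sum (f := fun P => (u P ^ k).re)
        (fun P hP => by linarith [h6 P hP]) hQM
  have h6 : (∑' P : I, if P ∈ M then u P ^ k else 0) =
      -∑' P : I, if P ∈ M then (0 : ℂ) else u P ^ k := by
    rw [h1] at h2
    exact eq_neg_of_add_eq_zero_left h2.symm
  have h7 : ‖∑ P ∈ hMfin.toFinset, u P ^ k‖ < 1 / 2 := by
    rw [← h4, h6, norm_neg]
    exact h3
  have h8 := (Complex.re_le_norm (∑ P ∈ hMfin.toFinset, u P ^ k))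
  linarith

end H18.HK
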