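import Pool.Agent.H18.HK.Form
import Pool.Agent.H18.HK.Ser

/-!
# Eisenstein series on periods
-/

set_option autoImplicit false

namespace H18.HK

open Matrix Topology Filter Set H18.TF

variable {r : ℕ} {Q : Matrix (Fin r) (Fin r) ℤ}

/-- The real vector with the given integral coordinates. -/
def rv (v : Fin r → ℤ) : Fin r → ℝ := fun a => (v a : ℝ)

theorem bf_rv (v w : Fin r → ℤ) : bf Q (rv v) (rv w) = ((bf Q v w : ℤ) : ℝ) :=
  bf_map (Q := Q) (Int.castRingHom ℝ) v w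

theorem norm_rv (v : Fin r → ℤ) : ‖rv v‖ = ‖v‖ := by
  simp only [Pi.norm_def]
  congr 1

/-- The integral vectors `v` orthogonal to `κ` with `q(v, v) = m`. -/
def vecs (Q : Matrix (Fin r) (Fin r) ℤ) (κ : Fin r → ℝ) (m : ℤ) : Set (Fin r → ℤ) :=
  {v | bf Q (rv v) κ = 0 ∧ bf Q v v = m}

/-- The Eisenstein series of weight `k`. -/
noncomputable def eis (Q : Matrix (Fin r) (Fin r) ℤ) (κ : Fin r → ℝ) (m : ℤ) (k : ℕ)
    (σ : Fin r → ℂ) : ℂ :=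
  ∑' v : vecs Q κ m, (bf Q (cx (rv v)) σ)⁻¹ ^ k

theorem exists_lower_vecs {κ : Fin r → ℝ} {σ : Fin r → ℂ} (h : Neg Q κ σ) {m : ℤ} (hm : 0 < m) :
    ∃ c : ℝ, 0 < c ∧ ∀ᶠ σ' in 𝓝 σ, ∀ v ∈ vecs Q κ m, c * ‖v‖ ≤ ‖bf Q (cx (rv v)) σ'‖ := by
  obtain ⟨c, hc, h1⟩ := exists_lower_near h
  refine ⟨c, hc, h1.mono fun σ' hσ' v hv => ?_⟩
  have h2 := hσ' (rv v) hv.1 (by
    rw [bf_rv, hv.2]
    exact_mod_cast hm.le)
  rwa [norm_rv] at h2

theorem norm_pos_of_mem {κ : Fin r → ℝ} {m : ℤ} (hm : 0 < m) {v : Fin r → ℤ}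
    (hv : v ∈ vecs Q κ m) : 0 < ‖v‖ := by
  rw [norm_pos_iff]
  rintro rfl
  have := hv.2
  rw [bf_zero_left] at this
  omega

theorem summable_vecs (κ : Fin r → ℝ) (m : ℤ) {k : ℕ} (hk : r < k) :
    Summable fun v : vecs Q κ m => ‖(v : Fin r → ℤ)‖⁻¹ ^ k :=
  (summable_int_vectors (D := Fin r) (by simpa using hk)).comp_injective Subtype.val_injective

theorem bound_term' {c : ℝ} (hc : 0 < c) {z : ℂ} {s : ℝ} (hs : 0 < s) (h : c * s ≤ ‖z‖) (k : ℕ) :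
    ‖z⁻¹ ^ k‖ ≤ c⁻¹ ^ k * s⁻¹ ^ k := by
  rw [norm_pow, norm_inv, ← mul_pow, ← mul_inv]
  gcongr

theorem differentiable_bf (x : Fin r → ℂ) : Differentiable ℂ fun σ : Fin r → ℂ => bf Q x σ := by
  have : (fun σ : Fin r → ℂ => bf Q x σ) = fun σ => ∑ a, ∑ b, x a * ((Q a b : ℤ) : ℂ) * σ b :=
    funext fun σ => bf_eq_sum Q x σ
  rw [this]
  fun_prop

/-- The Eisenstein series is holomorphic. -/
theorem eis_differentiableAt {κ : Fin r → ℝ} {σ : Fin r → ℂ} (h : Neg Q κ σ) {m : ℤ} (hm : 0 < m)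
    {k : ℕ} (hk : r < k) : DifferentiableAt ℂ (eis Q κ m k) σ := by
  obtain ⟨c, hc, hcW⟩ := exists_lower_vecs h hm
  obtain ⟨R, hR, hball⟩ := Metric.eventually_nhds_iff_ball.1 hcW
  have h1 : DifferentiableOn ℂ (eis Q κ m k) (Metric.ball σ (R / 2)) := by
    refine differentiableOn_tsum (u := fun v : vecs Q κ m =>
      c⁻¹ ^ k * ‖(v : Fin r → ℤ)‖⁻¹ ^ k) ((summable_vecs κ m hk).mul_left _) ?_ ?_
    · intro v σ' hσ'
      have h2 : bf Q (cx (rv v)) σ' ≠ 0 := by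
        have := hball σ' hσ' v v.2
        have h3 := mul_pos hc (norm_pos_of_mem hm v.2)
        exact norm_pos_iff.1 (lt_of_lt_of_le h3 this)
      exact (((differentiable_bf (Q := Q) (cx (rv v))) σ').inv h2 |>.pow k).differentiableWithinAt
    · intro v σ' hσ'
      exact bound_term' hc (norm_pos_of_mem hm v.2) (hball σ' hσ' v v.2) k
  exact h1.differentiableAt (Metric.isOpen_ball.mem_nhds (Metric.mem_ball_self (half_pos hR)))

/-- Some Eisenstein series does not vanish at a given point. -/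
theorem exists_eis_ne_zero {κ : Fin r → ℝ} {σ : Fin r → ℂ} (h : Neg Q κ σ) {m : ℤ} (hm : 0 < m)
    (hne : (vecs Q κ m).Nonempty) (K : ℕ) : ∃ k ≥ K, eis Q κ m k σ ≠ 0 := by
  obtain ⟨c, hc, hcW⟩ := exists_lower_vecs h hm
  have hlow : ∀ v : vecs Q κ m, c * ‖(v : Fin r → ℤ)‖ ≤ ‖bf Q (cx (rv v)) σ‖ :=
    fun v => hcW.self_of_nhds v v.2
  have hpos : ∀ v : vecs Q κ m, bf Q (cx (rv v)) σ ≠ 0 := fun v =>
    norm_pos_iff.1 (lt_of_lt_of_le (mul_pos hc (norm_pos_of_mem hm v.2)) (hlow v))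
  have hN : Nonempty (vecs Q κ m) := hne.to_subtype
  refine exists_tsum_ne_zero (fun v : vecs Q κ m => bf Q (cx (rv v)) σ) hpos (N := r + 1) ?_ K
  exact Summable.of_nonneg_of_le (fun _ => norm_nonneg _)
      (fun v => bound_term' hc (norm_pos_of_mem hm v.2) (hlow v) (r + 1))
      ((summable_vecs κ m (Nat.lt_succ_self _)).mul_left _)

section transform

variable {Q' γ : Matrix (Fin r) (Fin r) ℤ} {κ κ' : Fin r → ℝ}

theorem rv_mulVec (γ : Matrix (Fin r) (Fin r) ℤ) (v : Fin r → ℤ) :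
    rv (γ *ᵥ v) = γ.map (Int.castRingHom ℝ) *ᵥ rv v := by
  funext a
  simp [rv, Matrix.mulVec, dotProduct]

theorem cx_mulVec (γ : Matrix (Fin r) (Fin r) ℤ) (x : Fin r → ℝ) :
    cx (γ.map (Int.castRingHom ℝ) *ᵥ x) = γ.map (Int.castRingHom ℂ) *ᵥ cx x := by
  funext a
  simp [cx, Matrix.mulVec, dotProduct]

theorem mulVec_mem (hγ : γᵀ * Q * γ = Q') (hκ : κ = γ.map (Int.castRingHom ℝ) *ᵥ κ') {m : ℤ}
    {v : Fin r → ℤ} (hv : v ∈ vecs Q' κ' m) : γ *ᵥ v ∈ vecs Q κ m := by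
  refine ⟨?_, ?_⟩
  · rw [rv_mulVec, hκ, bf_mulVec hγ]
    exact hv.1
  · have h1 := bf_mulVec (R := ℤ) hγ v v
    have h2 : γ.map (Int.castRingHom ℤ) = γ := by
      ext a b; simp
    rw [h2] at h1
    rw [h1]
    exact hv.2

/-- The bijection of the integral vectors given by a change of the basis. -/
noncomputable def vecsEquiv (hu : IsUnit γ.det) (hγ : γᵀ * Q * γ = Q')
    (hκ : κ = γ.map (Int.castRingHom ℝ) *ᵥ κ') (m : ℤ) : vecs Q' κ' m ≃ vecs Q κ m where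
  toFun v := ⟨γ *ᵥ v, mulVec_mem hγ hκ v.2⟩
  invFun v := ⟨γ⁻¹ *ᵥ v, by
    have hut : IsUnit γᵀ.det := by rwa [Matrix.det_transpose]
    refine mulVec_mem (Q := Q') (Q' := Q) (γ := γ⁻¹) (κ := κ') (κ' := κ) ?_ ?_ v.2
    · rw [← hγ, Matrix.transpose_nonsing_inv]
      calc (γᵀ)⁻¹ * (γᵀ * Q * γ) * γ⁻¹ = ((γᵀ)⁻¹ * γᵀ) * Q * (γ * γ⁻¹) := by
            simp only [Matrix.mul_assoc]
        _ = Q := by
            rw [Matrix.mul_nonsing_inv _ hu, Matrix.nonsing_inv_mul _ hut, Matrix.one_mul,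
              Matrix.mul_one]
    · rw [hκ, Matrix.mulVec_mulVec, ← Matrix.map_mul, Matrix.nonsing_inv_mul _ hu]
      simp⟩
  left_inv v := by
    apply Subtype.ext
    show γ⁻¹ *ᵥ (γ *ᵥ (v : Fin r → ℤ)) = v
    rw [Matrix.mulVec_mulVec, Matrix.nonsing_inv_mul _ hu, Matrix.one_mulVec]
  right_inv v := by
    apply Subtype.ext
    show γ *ᵥ (γ⁻¹ *ᵥ (v : Fin r → ℤ)) = v
    rw [Matrix.mulVec_mulVec, Matrix.mul_nonsing_inv _ hu, Matrix.one_mulVec]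

/-- The transformation law of the Eisenstein series. -/
theorem eis_transform (hu : IsUnit γ.det) (hγ : γᵀ * Q * γ = Q')
    (hκ : κ = γ.map (Int.castRingHom ℝ) *ᵥ κ') {t : ℂ} (ht : t ≠ 0) {σ σ' : Fin r → ℂ}
    (hσ : σ = t • (γ.map (Int.castRingHom ℂ) *ᵥ σ')) (m : ℤ) (k : ℕ) :
    eis Q κ m k σ * t ^ k = eis Q' κ' m k σ' := by
  have h1 : ∀ v : vecs Q' κ' m, bf Q (cx (rv (vecsEquiv hu hγ hκ m v : vecs Q κ m))) σ =
      t * bf Q' (cx (rv v)) σ' := by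
    intro v
    show bf Q (cx (rv (γ *ᵥ (v : Fin r → ℤ)))) σ = _
    rw [hσ, rv_mulVec, cx_mulVec, bf_smul_right, bf_mulVec hγ]
  rw [eis, eis, ← (vecsEquiv hu hγ hκ m).tsum_eq, ← tsum_mul_right]
  congr 1
  funext v
  rw [h1, mul_inv, mul_pow, mul_right_comm, ← mul_pow, inv_mul_cancel₀ ht, one_pow, one_mul]

end transform

end H18.HK
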