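import Pool.Agent.H18.HK.Tw

/-!
# Global generation, and log pluricanonical forms on manifolds over the base
-/

set_option autoImplicit false

namespace H18.HK

open Matrix Set Filter Topology H18.TF
open scoped Manifold ContDiff

universe u v w x

variable {n r : ℕ} {B : Type u} [TopologicalSpace B] [ChartedSpace (Fin n → ℂ) B] {ι : Type v}
  {Y : PeriodFamily n B r ι}

namespace PeriodFamily

theorem IsSectionOf.pow {μ : ι → ι → B → ℂ} {k : ℕ} {s : ι → B → ℂ} (hs : Y.IsSectionOf μ k s)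
    (j : ℕ) : Y.IsSectionOf μ (k * j) (fun i p => s i p ^ j) where
  holo i := by
    have := (hs.holo i).pow j
    exact this
  eq i j' p hp := by rw [pow_mul, ← mul_pow, hs.eq i j' p hp]

theorem IsSectionOf.ne_zero {k : ℕ} {s : ι → B → ℂ} (hs : Y.IsSectionOf Y.t k s) {i j : ι} {p : B}
    (hi : p ∈ Y.U i) (hj : p ∈ Y.U j) (h : s i p ≠ 0) : s j p ≠ 0 := by
  rw [← hs.eq i j p ⟨hi, hj⟩]
  exact mul_ne_zero h (pow_ne_zero _ (Y.t_ne_zero i j p ⟨hi, hj⟩))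

/-- Over a compact subset the line bundle `λ` of a family with a real polarization is semiample. -/
theorem IsPolarization.exists_power [PreconnectedSpace B]
    {S : ι → B → Matrix (Fin r) (Fin r) ℝ} {κ : ι → B → Fin r → ℝ}
    (hκ : Y.IsPolarization S κ) {Z : Set B} (hZ : IsCompact Z) :
    ∃ N, 1 ≤ N ∧ Y.IsGeneratedOf Y.t N Z := by
  have h1 : ∀ p : B, ∃ k, 1 ≤ k ∧ ∃ s, Y.IsSectionOf Y.t k s ∧
      ∀ᶠ q in 𝓝 p, ∀ i, q ∈ Y.U i → s i q ≠ 0 := by
    intro p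
    obtain ⟨k, hk, s, hs, i, hi, hne⟩ := hκ.exists_section p
    refine ⟨k, hk, s, hs, ?_⟩
    have hc : ContinuousAt (s i) p :=
      ((hs.holo i).mdifferentiableAt ((isOpen_U i).mem_nhds hi)).continuousAt
    filter_upwards [(isOpen_U (Y := Y) i).mem_nhds hi, hc.eventually_ne hne] with q hq hq' j hj
    exact hs.ne_zero hq hj hq'
  choose k hk s hs hev using h1
  obtain ⟨t, -, ht⟩ := hZ.elim_nhds_subcover (fun p => {q | ∀ i, q ∈ Y.U i → s p i q ≠ 0})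
    fun p _ => hev p
  refine ⟨∏ p ∈ t, k p, Finset.one_le_prod' fun p _ => hk p, fun q hqZ => ?_⟩
  obtain ⟨p, hpt, hp⟩ := Set.mem_iUnion₂.1 (ht hqZ)
  obtain ⟨j, hj⟩ := Finset.dvd_prod_of_mem k hpt
  rw [hj]
  exact ⟨_, (hs p).pow j, fun i hi => pow_ne_zero _ (hp i hi)⟩

end PeriodFamily

section total

variable {k : ℕ} {X : Type w} [TopologicalSpace X] [ChartedSpace (Fin k → ℂ) X] {α : Type x}
  {h : PairMap Y k X α}

theorem PairMap.holo_comp {U : Set B} {f : B → ℂ} (hf : Holo (n := n) U f) {V : Set X}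
    (hV : ∀ p ∈ V, h.π p ∈ U) : Holo (n := k) V fun p => f (h.π p) := by
  have h1 : MDifferentiableOn 𝓘(ℂ, Fin k → ℂ) 𝓘(ℂ, Fin n → ℂ) h.π V :=
    h.holo_π.mdifferentiableOn
  exact MDifferentiableOn.comp hf h1 hV

/-- If `λ ^ N` and `M ^ N'` are globally generated and `K_X ^ m ⊗ O(D)` is the inverse image of
`λ ^ e ⊗ M`, then the power `N N'` of this line bundle is globally generated. -/
theorem PairMap.IsAdjunction.isGenerated {μ : ι → ι → B → ℂ} {m e : ℕ}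
    {τ : α → OpenPartialHomeomorph X (Fin k → ℂ) → X → ℂ}
    (hτ : h.IsAdjunction (fun i j p => Y.t i j p ^ e * μ i j p) m τ) {N N' : ℕ}
    {Z : Set B} (hN : Y.IsGeneratedOf Y.t N Z) (hN' : Y.IsGeneratedOf μ N' Z) :
    h.IsGenerated m (N * N') Z := by
  intro x hx
  obtain ⟨s, hs, hs0⟩ := hN (h.π x) hx
  obtain ⟨s', hs', hs0'⟩ := hN' (h.π x) hx
  refine ⟨fun a ψ y => τ a ψ y ^ (N * N') * s (h.idx a) (h.π y) ^ (e * N') *
    s' (h.idx a) (h.π y) ^ N, ⟨?_, ?_, ?_⟩, ?_⟩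
  · intro a ψ hψ
    have hmem : ∀ p ∈ h.W a ∩ ψ.source, h.π p ∈ Y.U (h.idx a) := fun p hp => h.mem _ p hp.1
    have h1 : Holo (n := k) (h.W a ∩ ψ.source) (τ a ψ) := hτ.holo _ ψ hψ
    have h2 : Holo (n := k) (h.W a ∩ ψ.source) fun p => s (h.idx a) (h.π p) :=
      PairMap.holo_comp (hs.holo _) hmem
    have h3 : Holo (n := k) (h.W a ∩ ψ.source) fun p => s' (h.idx a) (h.π p) :=
      PairMap.holo_comp (hs'.holo _) hmem
    exact ((h1.pow (N * N')).mul (h2.pow (e * N'))).mul (h3.pow N)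
  · intro a ψ hψ ψ' hψ' p hp
    rw [← hτ.chart a ψ hψ ψ' hψ' p hp, mul_pow, ← pow_mul]
    ring
  · intro a a' ψ hψ p hp
    have hU : h.π p ∈ Y.U (h.idx a) ∩ Y.U (h.idx a') := ⟨h.mem a p hp.1.1, h.mem a' p hp.1.2⟩
    show τ a ψ p ^ (N * N') * s (h.idx a) (h.π p) ^ (e * N') * s' (h.idx a) (h.π p) ^ N =
      h.ε a a' p ^ (N * N') * (τ a' ψ p ^ (N * N') * s (h.idx a') (h.π p) ^ (e * N') *
        s' (h.idx a') (h.π p) ^ N)
    rw [hτ.trans a a' ψ hψ p hp, ← hs.eq _ _ _ hU, ← hs'.eq _ _ _ hU]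
    simp only [mul_pow, ← pow_mul]
    ring
  · intro a ha
    have hmem : x ∈ h.W a ∩ (chartAt (Fin k → ℂ) x).source := ⟨ha, mem_chart_source _ _⟩
    exact mul_ne_zero (mul_ne_zero
      (pow_ne_zero _ (hτ.ne_zero a _ (chart_mem_atlas _ _) x hmem))
      (pow_ne_zero _ (hs0 _ (h.mem a x ha)))) (pow_ne_zero _ (hs0' _ (h.mem a x ha)))

end total

end H18.HK
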