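import Pool.Agent.H18.HK.Defs

/-!
# Quadratic forms and period vectors
-/

set_option autoImplicit false

namespace H18.HK

open Matrix Topology Filter

variable {r : ℕ} {Q : Matrix (Fin r) (Fin r) ℤ}

/-- The value of the bilinear form with the integral matrix `Q` at two vectors with coordinates in a
commutative ring. -/
def bf {R : Type*} [CommRing R] (Q : Matrix (Fin r) (Fin r) ℤ) (x y : Fin r → R) : R :=
  x ⬝ᵥ (Q.map (Int.castRingHom R) *ᵥ y)

section ring

variable {R : Type*} [CommRing R]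

theorem bf_eq_sum (Q : Matrix (Fin r) (Fin r) ℤ) (x y : Fin r → R) :
    bf Q x y = ∑ a, ∑ b, x a * ((Q a b : ℤ) : R) * y b := by
  simp only [bf, dotProduct, Matrix.mulVec, Finset.mul_sum, Matrix.map_apply, mul_assoc]
  rfl

theorem bf_add_left (Q : Matrix (Fin r) (Fin r) ℤ) (x x' y : Fin r → R) :
    bf Q (x + x') y = bf Q x y + bf Q x' y := by
  simp [bf]

theorem bf_add_right (Q : Matrix (Fin r) (Fin r) ℤ) (x y y' : Fin r → R) :
    bf Q x (y + y') = bf Q x y + bf Q x y' := by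
  simp [bf, Matrix.mulVec_add]

theorem bf_sub_right (Q : Matrix (Fin r) (Fin r) ℤ) (x y y' : Fin r → R) :
    bf Q x (y - y') = bf Q x y - bf Q x y' := by
  simp [bf, Matrix.mulVec_sub]

theorem bf_smul_left (Q : Matrix (Fin r) (Fin r) ℤ) (c : R) (x y : Fin r → R) :
    bf Q (c • x) y = c * bf Q x y := by
  simp [bf]

theorem bf_smul_right (Q : Matrix (Fin r) (Fin r) ℤ) (c : R) (x y : Fin r → R) :
    bf Q x (c • y) = c * bf Q x y := by
  simp [bf, Matrix.mulVec_smul]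

theorem bf_zero_left (Q : Matrix (Fin r) (Fin r) ℤ) (y : Fin r → R) : bf Q 0 y = 0 := by
  simp [bf]

theorem bf_zero_right (Q : Matrix (Fin r) (Fin r) ℤ) (y : Fin r → R) : bf Q y 0 = 0 := by
  simp [bf]

theorem bf_comm (hQ : Qᵀ = Q) (x y : Fin r → R) : bf Q x y = bf Q y x := by
  rw [bf_eq_sum, bf_eq_sum, Finset.sum_comm]
  refine Finset.sum_congr rfl fun a _ => Finset.sum_congr rfl fun b _ => ?_
  have : Q b a = Q a b := congrFun (congrFun hQ a) b
  rw [this]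
  ring

theorem bf_map {S : Type*} [CommRing S] (f : R →+* S) (x y : Fin r → R) :
    bf Q (fun a => f (x a)) (fun a => f (y a)) = f (bf Q x y) := by
  simp [bf_eq_sum]

/-- The change of the basis. -/
theorem bf_mulVec {Q' γ : Matrix (Fin r) (Fin r) ℤ} (hγ : γᵀ * Q * γ = Q') (x y : Fin r → R) :
    bf Q (γ.map (Int.castRingHom R) *ᵥ x) (γ.map (Int.castRingHom R) *ᵥ y) = bf Q' x y := by
  have h1 : Q'.map (Int.castRingHom R) = (γ.map (Int.castRingHom R))ᵀ *
      Q.map (Int.castRingHom R) * γ.map (Int.castRingHom R) := by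
    rw [← hγ, Matrix.map_mul, Matrix.map_mul, Matrix.transpose_map]
  unfold bf
  rw [h1, ← Matrix.mulVec_mulVec, ← Matrix.mulVec_mulVec, Matrix.dotProduct_mulVec x,
    Matrix.vecMul_transpose]

end ring

theorem cx_add (x y : Fin r → ℝ) : cx (x + y) = cx x + cx y := by
  funext a; simp [cx]

theorem cx_smul (c : ℝ) (x : Fin r → ℝ) : cx (c • x) = (c : ℂ) • cx x := by
  funext a; simp [cx]

theorem star_cx (x : Fin r → ℝ) : star (cx x) = cx x := by
  funext a; simp [cx]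

theorem bf_cx (x y : Fin r → ℝ) : bf Q (cx x) (cx y) = ((bf Q x y : ℝ) : ℂ) :=
  bf_map (Q := Q) Complex.ofRealHom x y

theorem bf_star (x y : Fin r → ℂ) : bf Q (star x) (star y) = star (bf Q x y) :=
  bf_map (Q := Q) (starRingEnd ℂ) x y

theorem continuous_bf {R : Type*} [CommRing R] [TopologicalSpace R] [IsTopologicalRing R] :
    Continuous fun z : (Fin r → R) × (Fin r → R) => bf Q z.1 z.2 := by
  unfold bf
  fun_prop

theorem norm_bf_le (x y : Fin r → ℂ) : ‖bf Q x y‖ ≤ (∑ a, ∑ b, |(Q a b : ℝ)|) * (‖x‖ * ‖y‖) := by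
  rw [bf_eq_sum, Finset.sum_mul]
  refine (norm_sum_le _ _).trans (Finset.sum_le_sum fun a _ => ?_)
  rw [Finset.sum_mul]
  refine (norm_sum_le _ _).trans (Finset.sum_le_sum fun b _ => ?_)
  rw [norm_mul, norm_mul]
  have h1 : ‖((Q a b : ℤ) : ℂ)‖ = |(Q a b : ℝ)| := by
    rw [← Complex.ofReal_intCast, Complex.norm_real, Real.norm_eq_abs]
  rw [h1]
  have h2 := norm_le_pi_norm x a
  have h3 := norm_le_pi_norm y b
  calc ‖x a‖ * |(Q a b : ℝ)| * ‖y b‖ = |(Q a b : ℝ)| * (‖x a‖ * ‖y b‖) := by ring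
    _ ≤ |(Q a b : ℝ)| * (‖x‖ * ‖y‖) := by gcongr

/-- The condition on the period vector and the polarization. -/
def Neg (Q : Matrix (Fin r) (Fin r) ℤ) (κ : Fin r → ℝ) (σ : Fin r → ℂ) : Prop :=
  ∀ x : Fin r → ℝ, x ≠ 0 → bf Q x κ = 0 → bf Q (cx x) σ = 0 → bf Q x x < 0

theorem norm_cx (x : Fin r → ℝ) : ‖cx x‖ = ‖x‖ := by
  simp only [Pi.norm_def]
  congr 1
  congr 1
  funext a
  simp [cx]

theorem exists_lower {κ : Fin r → ℝ} {σ : Fin r → ℂ} (h : Neg Q κ σ) :
    ∃ c : ℝ, 0 < c ∧ ∀ x : Fin r → ℝ, bf Q x κ = 0 → 0 ≤ bf Q x x → c * ‖x‖ ≤ ‖bf Q (cx x) σ‖ := by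
  set K : Set (Fin r → ℝ) := {x | ‖x‖ = 1 ∧ bf Q x κ = 0 ∧ 0 ≤ bf Q x x} with hK
  have c1 : Continuous fun x : Fin r → ℝ => bf Q x κ :=
    (continuous_bf (Q := Q)).comp (continuous_id.prodMk continuous_const)
  have c2 : Continuous fun x : Fin r → ℝ => bf Q x x :=
    (continuous_bf (Q := Q)).comp (continuous_id.prodMk continuous_id)
  have c0 : Continuous fun x : Fin r → ℝ => cx x := by
    unfold cx
    fun_prop
  have c3 : Continuous fun x : Fin r → ℝ => ‖bf Q (cx x) σ‖ :=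
    ((continuous_bf (Q := Q)).comp (c0.prodMk continuous_const)).norm
  have hclosed : IsClosed K :=
    (isClosed_eq continuous_norm continuous_const).inter
      ((isClosed_eq c1 continuous_const).inter (isClosed_le continuous_const c2))
  have hcomp : IsCompact K := by
    refine (isCompact_closedBall (0 : Fin r → ℝ) 1).of_isClosed_subset hclosed fun x hx => ?_
    rw [mem_closedBall_zero_iff]
    exact hx.1.le
  have hscale : ∀ c : ℝ, 0 < c → (∀ x ∈ K, c ≤ ‖bf Q (cx x) σ‖) → ∀ x : Fin r → ℝ, bf Q x κ = 0 →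
      0 ≤ bf Q x x → c * ‖x‖ ≤ ‖bf Q (cx x) σ‖ := by
    intro c hc hcK x hx1 hx2
    rcases eq_or_ne x 0 with rfl | hx
    · simp
    have hn : 0 < ‖x‖ := norm_pos_iff.2 hx
    have hm : ‖x‖⁻¹ • x ∈ K := by
      refine ⟨?_, ?_, ?_⟩
      · rw [norm_smul, norm_inv, norm_norm, inv_mul_cancel₀ hn.ne']
      · rw [bf_smul_left, hx1, mul_zero]
      · rw [bf_smul_left, bf_smul_right]
        positivity
    have h1 := hcK _ hm
    rw [cx_smul, bf_smul_left, norm_mul, Complex.norm_real, norm_inv, norm_norm] at h1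
    rw [inv_mul_eq_div, le_div_iff₀ hn] at h1
    exact h1
  rcases K.eq_empty_or_nonempty with he | hne
  · exact ⟨1, one_pos, hscale 1 one_pos fun x hx => by rw [he] at hx; exact absurd hx (by simp)⟩
  · obtain ⟨x₀, hx₀, hmin⟩ := hcomp.exists_isMinOn hne c3.continuousOn
    have hpos : 0 < ‖bf Q (cx x₀) σ‖ := by
      rw [norm_pos_iff]
      intro h0
      have hx0 : x₀ ≠ 0 := by
        rintro rfl
        have := hx₀.1
        rw [norm_zero] at this
        exact zero_ne_one this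
      exact absurd (h x₀ hx0 hx₀.2.1 h0) (not_lt.2 hx₀.2.2)
    exact ⟨_, hpos, hscale _ hpos fun x hx => hmin hx⟩

theorem exists_lower_near {κ : Fin r → ℝ} {σ : Fin r → ℂ} (h : Neg Q κ σ) :
    ∃ c : ℝ, 0 < c ∧ ∀ᶠ σ' in 𝓝 σ, ∀ x : Fin r → ℝ, bf Q x κ = 0 → 0 ≤ bf Q x x →
      c * ‖x‖ ≤ ‖bf Q (cx x) σ'‖ := by
  obtain ⟨c, hc, h1⟩ := exists_lower h
  set C : ℝ := (∑ a, ∑ b, |(Q a b : ℝ)|) + 1 with hC
  have hC0 : 0 < C := by positivity
  refine ⟨c / 2, by positivity, ?_⟩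
  have hball : Metric.ball σ (c / (2 * C)) ∈ 𝓝 σ := Metric.ball_mem_nhds _ (by positivity)
  filter_upwards [hball] with σ' hσ' x hx1 hx2
  have h2 := h1 x hx1 hx2
  rw [mem_ball_iff_norm] at hσ'
  have h3 : ‖bf Q (cx x) (σ' - σ)‖ ≤ C * (‖x‖ * (c / (2 * C))) := by
    refine (norm_bf_le _ _).trans ?_
    rw [norm_cx]
    refine mul_le_mul (by rw [hC]; linarith) ?_ (by positivity) hC0.le
    exact mul_le_mul_of_nonneg_left hσ'.le (norm_nonneg _)
  have h4 : C * (‖x‖ * (c / (2 * C))) = c / 2 * ‖x‖ := by field_simp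
  rw [h4] at h3
  have h5 : bf Q (cx x) σ = bf Q (cx x) σ' - bf Q (cx x) (σ' - σ) := by
    rw [bf_sub_right]; ring
  rw [h5] at h2
  have h6 := norm_sub_le (bf Q (cx x) σ') (bf Q (cx x) (σ' - σ))
  linarith

end H18.HK
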