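import Pool.Agent.H18.HK.Rat
import Pool.Agent.H18.TF.Glob

/-!
# Sections of the powers of the line bundle of the two-forms
-/

set_option autoImplicit false

namespace H18.HK

open Matrix Topology Filter Set H18.TF
open scoped Manifold ContDiff

universe u v w x

variable {n r : ℕ} {B : Type u} [TopologicalSpace B] [ChartedSpace (Fin n → ℂ) B] {ι : Type v}
  {Y : PeriodFamily n B r ι}

namespace PeriodFamily

theorem isOpen_U (i : ι) : IsOpen (Y.U i) := Y.isOpen i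

/-- The vectors `τ i p` with the integral forms `Q i p` and the real vectors `κ i p`. -/
structure IntPol (Y : PeriodFamily n B r ι) (τ : ι → B → Fin r → ℂ)
    (Q : ι → B → Matrix (Fin r) (Fin r) ℤ) (κ : ι → B → Fin r → ℝ) : Prop where
  holo : ∀ i a, Holo (n := n) (Y.U i) fun p => τ i p a
  change : ∀ i j, ∀ p ∈ Y.U i ∩ Y.U j,
    τ i p = Y.t i j p • ((Y.γ i j p).map (Int.castRingHom ℂ) *ᵥ τ j p)
  flat : ∀ i, ∀ p ∈ Y.U i, ∀ᶠ p' in 𝓝 p, Q i p' = Q i p ∧ κ i p' = κ i p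
  symm : ∀ i, ∀ p ∈ Y.U i, (Q i p)ᵀ = Q i p
  eq_Q : ∀ i j, ∀ p ∈ Y.U i ∩ Y.U j, (Y.γ i j p)ᵀ * Q i p * Y.γ i j p = Q j p
  eq_κ : ∀ i j, ∀ p ∈ Y.U i ∩ Y.U j, κ i p = (Y.γ i j p).map (Int.castRingHom ℝ) *ᵥ κ j p
  isotropic : ∀ i, ∀ p ∈ Y.U i, bf (Q i p) (τ i p) (τ i p) = 0
  positive : ∀ i, ∀ p ∈ Y.U i, 0 < (bf (Q i p) (τ i p) (star (τ i p))).re
  orthogonal : ∀ i, ∀ p ∈ Y.U i, bf (Q i p) (cx (κ i p)) (τ i p) = 0
  negative : ∀ i, ∀ p ∈ Y.U i, Neg (Q i p) (κ i p) (τ i p)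

variable {τ : ι → B → Fin r → ℂ} {Q : ι → B → Matrix (Fin r) (Fin r) ℤ} {κ : ι → B → Fin r → ℝ}

namespace IntPol

theorem mdifferentiableAt (h : Y.IntPol τ Q κ) {i : ι} {p : B} (hp : p ∈ Y.U i) :
    MDifferentiableAt 𝓘(ℂ, Fin n → ℂ) 𝓘(ℂ, Fin r → ℂ) (τ i) p :=
  mdifferentiableAt_pi fun a => (h.holo i a).mdifferentiableAt ((isOpen_U i).mem_nhds hp)

theorem mdifferentiableAt_comp (h : Y.IntPol τ Q κ) {F : (Fin r → ℂ) → ℂ} {i : ι} {p : B}
    (hp : p ∈ Y.U i) (hF : DifferentiableAt ℂ F (τ i p)) :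
    MDifferentiableAt 𝓘(ℂ, Fin n → ℂ) 𝓘(ℂ) (fun p' => F (τ i p')) p :=
  hF.mdifferentiableAt.comp p (h.mdifferentiableAt hp)

/-- The Eisenstein series are sections of the powers of the line bundle `λ`. -/
theorem isSectionOf_eis (h : Y.IntPol τ Q κ) {m : ℤ} (hm : 0 < m) {k : ℕ} (hk : r < k) :
    Y.IsSectionOf Y.t k fun i p => eis (Q i p) (κ i p) m k (τ i p) := by
  constructor
  · intro i p hp
    have h2 : (fun p' => eis (Q i p') (κ i p') m k (τ i p')) =ᶠ[𝓝 p]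
        fun p' => eis (Q i p) (κ i p) m k (τ i p') := by
      filter_upwards [h.flat i p hp] with p' hp'
      rw [hp'.1, hp'.2]
    exact ((h.mdifferentiableAt_comp hp (eis_differentiableAt (h.negative i p hp) hm
      hk)).congr_of_eventuallyEq h2).mdifferentiableWithinAt
  · intro i j p hp
    exact eis_transform (Y.det_γ i j p hp) (h.eq_Q i j p hp) (h.eq_κ i j p hp)
      (Y.t_ne_zero i j p hp) (h.change i j p hp) m k

/-- By connectedness, all the forms and vectors are equivalent. -/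
theorem conj [PreconnectedSpace B] (h : Y.IntPol τ Q κ) {i₀ : ι} {p₀ : B} (hp₀ : p₀ ∈ Y.U i₀) :
    ∀ i, ∀ p ∈ Y.U i, ∃ γ : Matrix (Fin r) (Fin r) ℤ, IsUnit γ.det ∧
      γᵀ * Q i p * γ = Q i₀ p₀ ∧ κ i p = γ.map (Int.castRingHom ℝ) *ᵥ κ i₀ p₀ := by
  set S : Set B := {p | ∃ i, p ∈ Y.U i ∧ ∃ γ : Matrix (Fin r) (Fin r) ℤ, IsUnit γ.det ∧
      γᵀ * Q i p * γ = Q i₀ p₀ ∧ κ i p = γ.map (Int.castRingHom ℝ) *ᵥ κ i₀ p₀} with hS
  have hany : ∀ p ∈ S, ∀ j, p ∈ Y.U j → ∃ γ : Matrix (Fin r) (Fin r) ℤ, IsUnit γ.det ∧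
      γᵀ * Q j p * γ = Q i₀ p₀ ∧ κ j p = γ.map (Int.castRingHom ℝ) *ᵥ κ i₀ p₀ := by
    rintro p ⟨i, hi, γ, hγ, h1, h2⟩ j hj
    refine ⟨Y.γ j i p * γ, ?_, ?_, ?_⟩
    · rw [Matrix.det_mul]
      exact (Y.det_γ j i p ⟨hj, hi⟩).mul hγ
    · calc (Y.γ j i p * γ)ᵀ * Q j p * (Y.γ j i p * γ) =
            γᵀ * ((Y.γ j i p)ᵀ * Q j p * Y.γ j i p) * γ := by
            rw [Matrix.transpose_mul]
            simp only [Matrix.mul_assoc]
        _ = Q i₀ p₀ := by rw [h.eq_Q j i p ⟨hj, hi⟩, h1]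
    · rw [h.eq_κ j i p ⟨hj, hi⟩, h2, Matrix.mulVec_mulVec, ← Matrix.map_mul]
  have hnear : ∀ i, ∀ p ∈ Y.U i, ∀ᶠ p' in 𝓝 p, p' ∈ Y.U i ∧ Q i p' = Q i p ∧ κ i p' = κ i p :=
    fun i p hp => Filter.Eventually.and ((isOpen_U i).mem_nhds hp) (h.flat i p hp)
  have hopen : IsOpen S := by
    rw [isOpen_iff_mem_nhds]
    rintro p ⟨i, hi, γ, hγ, h1, h2⟩
    filter_upwards [hnear i p hi] with p' hp'
    exact ⟨i, hp'.1, γ, hγ, by rw [hp'.2.1]; exact h1, hp'.2.2.trans h2⟩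
  have hclosed : IsClosed S := by
    rw [← isOpen_compl_iff, isOpen_iff_mem_nhds]
    intro p hp
    obtain ⟨i, hi⟩ := Y.cover p
    filter_upwards [hnear i p hi] with p' hp' hmem
    obtain ⟨γ, hγ, h1, h2⟩ := hany p' hmem i hp'.1
    exact hp ⟨i, hi, γ, hγ, by rw [← hp'.2.1]; exact h1, hp'.2.2.symm.trans h2⟩
  have huniv : S = Set.univ :=
    IsClopen.eq_univ ⟨hclosed, hopen⟩ ⟨p₀, i₀, hp₀, 1, by simp, by simp, by simp⟩
  intro i p hp
  exact hany p (huniv ▸ Set.mem_univ p) i hp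

/-- The combination `comb c (κ i p)` defines a section of the dual of the line bundle `λ`; its inverse is
a section of `λ` if it has no zeros. -/
theorem isSectionOf_inv (h : Y.IntPol τ Q κ) (c : Module.Basis.ofVectorSpaceIndex ℚ ℝ →₀ ℝ)
    (hne : ∀ i, ∀ p ∈ Y.U i, bf (Q i p) (cx (comb c (κ i p))) (τ i p) ≠ 0) :
    Y.IsSectionOf Y.t 1 fun i p => (bf (Q i p) (cx (comb c (κ i p))) (τ i p))⁻¹ := by
  constructor
  · intro i p hp
    have h2 : (fun p' => (bf (Q i p') (cx (comb c (κ i p'))) (τ i p'))⁻¹) =ᶠ[𝓝 p]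
        fun p' => (bf (Q i p) (cx (comb c (κ i p))) (τ i p'))⁻¹ := by
      filter_upwards [h.flat i p hp] with p' hp'
      rw [hp'.1, hp'.2]
    exact ((h.mdifferentiableAt_comp (F := fun x => (bf (Q i p) (cx (comb c (κ i p))) x)⁻¹) hp
      (((differentiable_bf (Q := Q i p) (cx (comb c (κ i p)))) _).inv
        (hne i p hp))).congr_of_eventuallyEq h2).mdifferentiableWithinAt
  · intro i j p hp
    have h1 : bf (Q i p) (cx (comb c (κ i p))) (τ i p) =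
        Y.t i j p * bf (Q j p) (cx (comb c (κ j p))) (τ j p) := by
      rw [h.eq_κ i j p hp, comb_mulVec, h.change i j p hp, bf_smul_right, cx_mulVec,
        bf_mulVec (h.eq_Q i j p hp)]
    have h2 := Y.t_ne_zero i j p hp
    rw [h1, mul_inv, pow_one, mul_comm, ← mul_assoc, mul_inv_cancel₀ h2, one_mul]

/-- At each point there is a section of a power of `λ` which does not vanish there. -/
theorem exists_section [PreconnectedSpace B] (h : Y.IntPol τ Q κ) (p : B) :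
    ∃ k, 1 ≤ k ∧ ∃ s, Y.IsSectionOf Y.t k s ∧ ∃ i, p ∈ Y.U i ∧ s i p ≠ 0 := by
  obtain ⟨i₀, hp⟩ := Y.cover p
  have hp₀ : p ∈ Y.U i₀ := hp
  by_cases hv : ∃ v : Fin r → ℤ, bf (Q i₀ p) (rv v) (κ i₀ p) = 0 ∧ 0 < bf (Q i₀ p) v v
  · obtain ⟨v, hv1, hv2⟩ := hv
    obtain ⟨k, hk, hne⟩ := exists_eis_ne_zero (h.negative i₀ p hp₀) hv2 ⟨v, hv1, rfl⟩ (r + 1)
    exact ⟨k, by omega, _, h.isSectionOf_eis hv2 (by omega), i₀, hp₀, hne⟩
  · obtain ⟨c, hc0, hc1, hc2⟩ := exists_comb (h.symm i₀ p hp₀) (h.isotropic i₀ p hp₀)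
      (h.positive i₀ p hp₀) (h.orthogonal i₀ p hp₀) hv
    have hne : ∀ i, ∀ p ∈ Y.U i, bf (Q i p) (cx (comb c (κ i p))) (τ i p) ≠ 0 := by
      intro i p' hp' h0
      obtain ⟨γ, hγ, h1, h2⟩ := h.conj hp₀ i p' hp'
      have h3 := h.negative i p' hp' (comb c (κ i p')) ?_ ?_ h0
      · rw [h2, comb_mulVec, bf_mulVec h1] at h3
        exact absurd h3 (not_lt.2 hc2)
      · rw [h2, comb_mulVec]
        intro h4
        apply hc0
        have h5 := congrArg (fun x => γ⁻¹.map (Int.castRingHom ℝ) *ᵥ x) h4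
        simp only [Matrix.mulVec_mulVec, ← Matrix.map_mul, Matrix.nonsing_inv_mul _ hγ,
          Matrix.mulVec_zero] at h5
        simpa using h5
      · rw [h2, comb_mulVec, bf_mulVec h1]
        exact hc1
    exact ⟨1, le_refl 1, _, h.isSectionOf_inv c hne, i₀, hp₀, inv_ne_zero (hne i₀ p hp₀)⟩

end IntPol

end PeriodFamily

end H18.HK
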