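import Pool.Agent.H18.HK.ProdDefs
import Pool.Agent.H18.HK.Final
import Pool.Agent.H18.TF.Final

/-!
# Products of complex tori and hyperkähler manifolds as fibres
-/

set_option autoImplicit false

namespace H18.HK

open Matrix Set Filter Topology H18.TF
open scoped Manifold ContDiff

universe u v w x y

variable {n : ℕ} {B : Type u} [TopologicalSpace B] [ChartedSpace (Fin n → ℂ) B] {ι : Type v}

section base

variable {U : ι → Set B} {k : ℕ} {X : Type w} [TopologicalSpace X] [ChartedSpace (Fin k → ℂ) X]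
  {α : Type x} {h : BaseMap (n := n) U k X α}

theorem BaseMap.holo_comp {V : Set B} {f : B → ℂ} (hf : Holo (n := n) V f) {W : Set X}
    (hW : ∀ p ∈ W, h.π p ∈ V) : Holo (n := k) W fun p => f (h.π p) := by
  have h1 : MDifferentiableOn 𝓘(ℂ, Fin k → ℂ) 𝓘(ℂ, Fin n → ℂ) h.π W :=
    h.holo_π.mdifferentiableOn
  exact MDifferentiableOn.comp hf h1 hW

/-- A section of `M ^ N` gives a section of `K_X ^ (m N)`, if `K_X ^ m` is the inverse image of `M`. -/
theorem BaseMap.IsPullback.exists_canonical {μ : ι → ι → B → ℂ} {m : ℕ}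
    {τ : α → OpenPartialHomeomorph X (Fin k → ℂ) → X → ℂ} (hτ : h.IsPullback μ m τ) {N : ℕ}
    {s : ι → B → ℂ} (hs : ∀ i, Holo (n := n) (U i) (s i))
    (hs' : ∀ i j, ∀ p ∈ U i ∩ U j, s i p * μ i j p ^ N = s j p) :
    ∃ F, IsCanonicalForm k X (m * N) F ∧ ∀ a, ∀ ψ ∈ atlas (Fin k → ℂ) X,
      ∀ x ∈ h.W a ∩ ψ.source, F ψ x = τ a ψ x ^ N * s (h.idx a) (h.π x) := by
  classical
  choose a₀ ha₀ using h.cover
  have hind : ∀ a a', ∀ ψ ∈ atlas (Fin k → ℂ) X, ∀ x ∈ h.W a ∩ h.W a' ∩ ψ.source,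
      τ a ψ x ^ N * s (h.idx a) (h.π x) = τ a' ψ x ^ N * s (h.idx a') (h.π x) := by
    intro a a' ψ hψ x hx
    have h1 := hτ.trans a a' ψ hψ x hx
    have h2 := hs' (h.idx a) (h.idx a') (h.π x) ⟨h.mem a x hx.1.1, h.mem a' x hx.1.2⟩
    rw [h1, ← h2, mul_pow]
    ring
  refine ⟨fun ψ x => τ (a₀ x) ψ x ^ N * s (h.idx (a₀ x)) (h.π x), ⟨?_, ?_⟩, ?_⟩
  · intro ψ hψ x hx
    have hopen : IsOpen (h.W (a₀ x) ∩ ψ.source) := (h.isOpen _).inter ψ.open_source
    have hloc : (fun x' => τ (a₀ x') ψ x' ^ N * s (h.idx (a₀ x')) (h.π x')) =ᶠ[𝓝 x]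
        fun x' => τ (a₀ x) ψ x' ^ N * s (h.idx (a₀ x)) (h.π x') := by
      filter_upwards [hopen.mem_nhds ⟨ha₀ x, hx⟩] with x' hx'
      exact hind _ _ ψ hψ x' ⟨⟨ha₀ x', hx'.1⟩, hx'.2⟩
    have h1 : Holo (n := k) (h.W (a₀ x) ∩ ψ.source) (τ (a₀ x) ψ) := hτ.holo _ ψ hψ
    have h2 : Holo (n := k) (h.W (a₀ x) ∩ ψ.source) fun p => s (h.idx (a₀ x)) (h.π p) :=
      BaseMap.holo_comp (hs _) fun p hp => h.mem _ p hp.1
    have h5 := ((h1.pow N).mul h2).mdifferentiableAt (hopen.mem_nhds ⟨ha₀ x, hx⟩)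
    exact (h5.congr_of_eventuallyEq hloc).mdifferentiableWithinAt
  · intro ψ hψ ψ' hψ' x hx
    have h1 := hτ.chart (a₀ x) ψ hψ ψ' hψ' x ⟨ha₀ x, hx⟩
    show _ * jac ψ ψ' x ^ (m * N) = _
    rw [← h1, mul_pow, ← pow_mul]
    ring
  · intro a ψ hψ x hx
    exact hind _ _ ψ hψ x ⟨⟨ha₀ x, hx.1⟩, hx.2⟩

theorem BaseMap.IsPullback.isGloballyGenerated {μ : ι → ι → B → ℂ} {m : ℕ}
    {τ : α → OpenPartialHomeomorph X (Fin k → ℂ) → X → ℂ} (hτ : h.IsPullback μ m τ) {N : ℕ}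
    (hM : ∀ p : B, ∃ s : ι → B → ℂ, (∀ i, Holo (n := n) (U i) (s i)) ∧
      (∀ i j, ∀ p ∈ U i ∩ U j, s i p * μ i j p ^ N = s j p) ∧ ∀ i, p ∈ U i → s i p ≠ 0) :
    IsGloballyGenerated k X (m * N) := by
  intro x
  obtain ⟨a, ha⟩ := h.cover x
  obtain ⟨s, hs, hs', hne⟩ := hM (h.π x)
  obtain ⟨F, hF, hF2⟩ := hτ.exists_canonical hs hs'
  have hmem : x ∈ h.W a ∩ (chartAt (Fin k → ℂ) x).source := ⟨ha, mem_chart_source _ _⟩
  refine ⟨F, hF, ?_⟩
  rw [hF2 a _ (chart_mem_atlas _ _) x hmem]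
  exact mul_ne_zero (pow_ne_zero _ (hτ.ne_zero a _ (chart_mem_atlas _ _) x hmem))
    (hne _ (h.mem a x ha))

end base

theorem PeriodFamily.IsGeneratedOf.pow {r : ℕ} {Y : PeriodFamily n B r ι} {μ : ι → ι → B → ℂ}
    {N : ℕ} {Z : Set B} (h : Y.IsGeneratedOf μ N Z) (j : ℕ) : Y.IsGeneratedOf μ (N * j) Z := by
  intro p hp
  obtain ⟨s, hs, hne⟩ := h p hp
  exact ⟨_, hs.pow j, fun i hi => pow_ne_zero _ (hne i hi)⟩

variable {g : ℕ} {Y : TorusBundle n B g ι} {L : Type y} [Fintype L] {r : L → ℕ}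
  {P : ∀ l, PeriodFamily n B (r l) ι}

/-- There is a common power of all the line bundles which is globally generated. -/
theorem exists_common [CompactSpace B] [PreconnectedSpace B]
    {Ω : ι → B → Matrix (Fin (2 * g)) (Fin (2 * g)) ℝ} (hΩ : Y.IsPolarization Ω)
    {S : ∀ l, ι → B → Matrix (Fin (r l)) (Fin (r l)) ℝ} {κ : ∀ l, ι → B → Fin (r l) → ℝ}
    (hS : ∀ l, (P l).IsPolarization (S l) (κ l)) :
    ∃ N : ℕ, 1 ≤ N ∧ (∀ p, ∃ s, Y.IsSection N s ∧ ∀ i, p ∈ Y.U i → s i p ≠ 0) ∧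
      ∀ l, (P l).IsGeneratedOf (P l).t N Set.univ := by
  classical
  obtain ⟨N₀, hN₀, h0⟩ := hΩ.exists_power
  have h1 : ∀ l, ∃ N, 1 ≤ N ∧ (P l).IsGeneratedOf (P l).t N Set.univ := fun l =>
    (hS l).exists_power isCompact_univ
  choose N hN h1 using h1
  refine ⟨N₀ * ∏ l, N l, Nat.mul_pos hN₀ (Finset.prod_pos fun l _ => hN l), fun p => ?_,
    fun l => ?_⟩
  · obtain ⟨s, hs, hne⟩ := h0 p
    exact ⟨_, hs.pow _, fun i hi => pow_ne_zero _ (hne i hi)⟩
  · obtain ⟨j, hj⟩ := Finset.dvd_prod_of_mem N (Finset.mem_univ l)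
    rw [hj, mul_left_comm]
    exact (h1 l).pow _

/-- If `K_X ^ m` is the inverse image of the `m`-th power of `K_B ⊗ λ_A ⊗ (⨂ λ_l ^ (e l))`, then `K_X` is
semiample, if `K_B`, `λ_A` and the `λ_l` are semiample. -/
theorem isGloballyGenerated_prod (hU : ∀ l i, (P l).U i = Y.U i) {N N' : ℕ} (e : L → ℕ)
    (h0 : ∀ p, ∃ s, Y.IsSection N s ∧ ∀ i, p ∈ Y.U i → s i p ≠ 0)
    (h1 : ∀ l, (P l).IsGeneratedOf (P l).t N Set.univ) (hB : IsGloballyGenerated n B N')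
    {k : ℕ} {X : Type w} [TopologicalSpace X] [ChartedSpace (Fin k → ℂ) X] {α : Type x}
    {h : BaseMap (n := n) Y.U k X α} {m : ℕ}
    {τ : α → OpenPartialHomeomorph X (Fin k → ℂ) → X → ℂ}
    (hτ : h.IsPullback (fun i j p => relativeCanonical Y P e i j p ^ m) m τ) :
    IsGloballyGenerated k X (m * (N * N')) := by
  refine hτ.isGloballyGenerated fun p => ?_
  obtain ⟨s, hs, hne⟩ := h0 p
  choose sl hsl hnel using fun l => h1 l p (Set.mem_univ p)
  obtain ⟨σ, hσ, hσ0⟩ := hB p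
  refine ⟨fun i q => σ (Y.chart i) q ^ (m * N) * s i q ^ (m * N') *
    ∏ l, sl l i q ^ (e l * (m * N')), ?_, ?_, ?_⟩
  · intro i
    have e1 : Holo (n := n) (Y.U i) (σ (Y.chart i)) := hσ.holo _ (Y.mem_atlas i)
    have e2 : ∀ l, Holo (n := n) (Y.U i) (sl l i) := fun l => by
      have := (hsl l).holo i
      rwa [hU l i] at this
    have e3 : Holo (n := n) (Y.U i) fun q => ∏ l, sl l i q ^ (e l * (m * N')) := by
      have : ∀ T : Finset L, Holo (n := n) (Y.U i) fun q => ∏ l ∈ T, sl l i q ^ (e l * (m * N')) := by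
        classical
        intro T
        induction T using Finset.induction_on with
        | empty =>
          simp only [Finset.prod_empty]
          exact mdifferentiableOn_const
        | insert l T hl ih =>
          simp only [Finset.prod_insert hl]
          exact MDifferentiableOn.mul ((e2 l).pow _) ih
      exact this Finset.univ
    exact ((e1.pow (m * N)).mul ((hs.holo i).pow (m * N'))).mul e3
  · intro i j q hq
    have e1 := hσ.eq _ (Y.mem_atlas i) _ (Y.mem_atlas j) q hq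
    have e2 := hs.eq i j q hq
    have e3 : ∀ l, sl l i q * (P l).t i j q ^ N = sl l j q := fun l =>
      (hsl l).eq i j q (by rw [hU, hU]; exact hq)
    show σ (Y.chart i) q ^ (m * N) * s i q ^ (m * N') * (∏ l, sl l i q ^ (e l * (m * N'))) *
        (relativeCanonical Y P e i j q ^ m) ^ (N * N') =
      σ (Y.chart j) q ^ (m * N) * s j q ^ (m * N') * ∏ l, sl l j q ^ (e l * (m * N'))
    rw [← e1, ← e2]
    have e4 : ∏ l, sl l j q ^ (e l * (m * N')) =
        (∏ l, sl l i q ^ (e l * (m * N'))) * (∏ l, (P l).t i j q ^ e l) ^ (m * (N * N')) := by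
      rw [← Finset.prod_pow, ← Finset.prod_mul_distrib]
      refine Finset.prod_congr rfl fun l _ => ?_
      rw [← e3 l, mul_pow, ← pow_mul, ← pow_mul]
      congr 2
      ring
    rw [e4, relativeCanonical]
    simp only [mul_pow, ← pow_mul]
    ring
  · intro i hi
    refine mul_ne_zero (mul_ne_zero (pow_ne_zero _ fun h0 => hσ0 ?_) (pow_ne_zero _ (hne i hi)))
      (Finset.prod_ne_zero_iff.2 fun l _ => pow_ne_zero _ (hnel l i (by rw [hU]; exact hi)))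
    rw [← hσ.eq _ (Y.mem_atlas i) _ (chart_mem_atlas _ _) p ⟨hi, mem_chart_source _ _⟩, h0,
      zero_mul]

end H18.HK
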