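import Pool.Agent.H18.HK.Defs

/-!
# Manifolds over the base of families of tori and of Kähler manifolds with one two-form
-/

set_option autoImplicit false

namespace H18.HK

open Matrix Topology H18.TF
open scoped Manifold ContDiff

universe u v w x

variable {n : ℕ} {B : Type u} [TopologicalSpace B] [ChartedSpace (Fin n → ℂ) B] {ι : Type v}

/-- A holomorphic map `π : X → B` from a complex manifold `X` of dimension `k`, with an open covering of
`X` by sets `W a` such that `π (W a) ⊆ U (idx a)`, where the sets `U i` are an open covering of `B`. -/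
structure BaseMap (U : ι → Set B) (k : ℕ) (X : Type w) [TopologicalSpace X]
    [ChartedSpace (Fin k → ℂ) X] (α : Type x) where
  π : X → B
  W : α → Set X
  idx : α → ι
  holo_π : MDifferentiable 𝓘(ℂ, Fin k → ℂ) 𝓘(ℂ, Fin n → ℂ) π
  isOpen : ∀ a, IsOpen (W a)
  cover : ∀ p, ∃ a, p ∈ W a
  mem : ∀ a, ∀ p ∈ W a, π p ∈ U (idx a)

/-- The functions `τ a ψ` define an isomorphism of the line bundles `π^* M` and `K_X ^ m` on `X`, where
`M` is the line bundle on `B` which is trivial over the sets `U i` and has the transition functions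
`μ i j`: it maps the local generator of `π^* M` on `W a` to `τ a ψ (dψ_1 ∧ ... ∧ dψ_k) ^ m`, for all
charts `ψ` of `X`. -/
structure BaseMap.IsPullback {U : ι → Set B} {k : ℕ} {X : Type w} [TopologicalSpace X]
    [ChartedSpace (Fin k → ℂ) X] {α : Type x} (h : BaseMap (n := n) U k X α) (μ : ι → ι → B → ℂ)
    (m : ℕ) (τ : α → OpenPartialHomeomorph X (Fin k → ℂ) → X → ℂ) : Prop where
  holo : ∀ a, ∀ ψ ∈ atlas (Fin k → ℂ) X, Holo (n := k) (h.W a ∩ ψ.source) (τ a ψ)
  ne_zero : ∀ a, ∀ ψ ∈ atlas (Fin k → ℂ) X, ∀ p ∈ h.W a ∩ ψ.source, τ a ψ p ≠ 0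
  chart : ∀ a, ∀ ψ ∈ atlas (Fin k → ℂ) X, ∀ ψ' ∈ atlas (Fin k → ℂ) X,
    ∀ p ∈ h.W a ∩ (ψ.source ∩ ψ'.source), τ a ψ p * jac ψ ψ' p ^ m = τ a ψ' p
  trans : ∀ a a', ∀ ψ ∈ atlas (Fin k → ℂ) X, ∀ p ∈ h.W a ∩ h.W a' ∩ ψ.source,
    τ a ψ p = μ (h.idx a) (h.idx a') (h.π p) * τ a' ψ p

/-- The transition functions of the line bundle `K_B ⊗ λ_A ⊗ (⨂ λ_l ^ (e l))` on `B`, where
`λ_A = K_{A/B}` for a family `A → B` of complex tori and `λ_l` is the line bundle of the two-forms of the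
`l`-th family. -/
noncomputable def relativeCanonical {g : ℕ} (Y : TorusBundle n B g ι) {L : Type*} [Fintype L]
    {r : L → ℕ} (P : ∀ l, PeriodFamily n B (r l) ι) (e : L → ℕ) (i j : ι) (p : B) : ℂ :=
  jac (Y.chart i) (Y.chart j) p * (Y.A i j p).det * ∏ l, (P l).t i j p ^ e l

end H18.HK
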