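import Pool.Agent.H18.HK.Eis
import Pool.Agent.H18.TF.Twist

/-!
# Rational vectors near the real part of a period vector
-/

set_option autoImplicit false

namespace H18.HK

open Matrix Topology Filter Set H18.TF Module

variable {r : ℕ} {Q : Matrix (Fin r) (Fin r) ℤ}

/-- A basis of the real numbers over the rational numbers. -/
noncomputable abbrev qb : Basis (Basis.ofVectorSpaceIndex ℚ ℝ) ℚ ℝ := Basis.ofVectorSpace ℚ ℝ

/-- The rational vector of the `j`-th coordinates, as a real vector. -/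
noncomputable def co (j : Basis.ofVectorSpaceIndex ℚ ℝ) (x : Fin r → ℝ) : Fin r → ℝ :=
  fun a => ((qb.coord j (x a) : ℚ) : ℝ)

theorem co_mulVec (j : Basis.ofVectorSpaceIndex ℚ ℝ) (γ : Matrix (Fin r) (Fin r) ℤ)
    (x : Fin r → ℝ) :
    co j (γ.map (Int.castRingHom ℝ) *ᵥ x) = γ.map (Int.castRingHom ℝ) *ᵥ co j x := by
  funext a
  have h1 : (γ.map (Int.castRingHom ℝ) *ᵥ x) a = ∑ b, (γ a b : ℚ) • x b := by
    simp only [Matrix.mulVec, dotProduct, Matrix.map_apply, Rat.smul_def]
    refine Finset.sum_congr rfl fun b _ => ?_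
    simp
  show ((qb.coord j ((γ.map (Int.castRingHom ℝ) *ᵥ x) a) : ℚ) : ℝ) = _
  rw [h1, map_sum]
  simp only [map_smul, Matrix.mulVec, dotProduct, Matrix.map_apply]
  push_cast
  refine Finset.sum_congr rfl fun b _ => ?_
  simp [co]

theorem bf_self_re (hQ : Qᵀ = Q) {σ : Fin r → ℂ} (h0 : bf Q σ σ = 0) :
    2 * bf Q (fun a => (σ a).re) (fun a => (σ a).re) = (bf Q σ (star σ)).re := by
  have h1 : cx (fun a => (σ a).re) + cx (fun a => (σ a).re) = σ + star σ := by
    funext a
    apply Complex.ext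
    · simp [cx]
    · simp [cx]
  have h2 : bf Q (σ + star σ) (σ + star σ) = 2 * bf Q σ (star σ) := by
    rw [bf_add_left, bf_add_right, bf_add_right, h0, bf_comm hQ (star σ) σ, bf_star, h0]
    simp
    ring
  rw [← h1] at h2
  rw [bf_add_left, bf_add_right, bf_cx] at h2
  have h3 := congrArg Complex.re h2
  simp only [Complex.add_re, Complex.ofReal_re, Complex.mul_re, Complex.re_ofNat,
    Complex.im_ofNat, zero_mul, sub_zero] at h3
  linarith

/-- If a positive real vector is orthogonal to the rational vectors of the coordinates of `κ`, then there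
is a positive integral vector orthogonal to `κ`. -/
theorem exists_int_vector {κ x : Fin r → ℝ} (hxj : ∀ j, bf Q x (co j κ) = 0)
    (hxx : 0 < bf Q x x) : ∃ v : Fin r → ℤ, bf Q (rv v) κ = 0 ∧ 0 < bf Q v v := by
  have hcont : ContinuousAt (fun y : Fin r → ℝ => bf Q y y) x :=
    ((continuous_bf (Q := Q)).comp (continuous_id.prodMk continuous_id)).continuousAt
  obtain ⟨ε, hε, hball⟩ := Metric.eventually_nhds_iff_ball.1 (hcont.eventually (lt_mem_nhds hxx))
  obtain ⟨φ, hφ⟩ := exists_rat_linear x (half_pos hε)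
  set y : Fin r → ℚ := fun a => φ (x a) with hy
  set y' : Fin r → ℝ := fun a => ((y a : ℚ) : ℝ) with hy'
  have hyy : 0 < bf Q y' y' := by
    apply hball
    rw [mem_ball_iff_norm, pi_norm_lt_iff hε]
    intro a
    have := hφ a
    rw [Pi.sub_apply, Real.norm_eq_abs]
    linarith
  have hyj : ∀ j, ∑ a, ∑ b, y a * (Q a b : ℚ) * qb.coord j (κ b) = 0 := by
    intro j
    have h1 := hxj j
    rw [bf_eq_sum] at h1
    have h2 : (∑ a, ∑ b, x a * ((Q a b : ℤ) : ℝ) * co j κ b) =
        ∑ a, ∑ b, ((Q a b : ℚ) * qb.coord j (κ b)) • x a := by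
      refine Finset.sum_congr rfl fun a _ => Finset.sum_congr rfl fun b _ => ?_
      rw [Rat.smul_def]
      push_cast
      simp only [co]
      ring
    rw [h2] at h1
    have h3 := congrArg φ h1
    rw [map_zero, map_sum] at h3
    rw [← h3]
    refine Finset.sum_congr rfl fun a _ => ?_
    rw [map_sum]
    refine Finset.sum_congr rfl fun b _ => ?_
    rw [map_smul, smul_eq_mul, hy]
    ring
  have hyκ : bf Q y' κ = 0 := by
    have h1 : bf Q y' κ = ∑ a, ∑ b, (y a * (Q a b : ℚ)) • κ b := by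
      rw [bf_eq_sum]
      refine Finset.sum_congr rfl fun a _ => Finset.sum_congr rfl fun b _ => ?_
      rw [Rat.smul_def]
      push_cast
      rfl
    rw [h1]
    apply qb.ext_elem
    intro j
    have h2 := hyj j
    rw [map_zero, Finsupp.zero_apply, ← Basis.coord_apply, map_sum, ← h2]
    refine Finset.sum_congr rfl fun a _ => ?_
    rw [map_sum]
    refine Finset.sum_congr rfl fun b _ => ?_
    rw [map_smul, smul_eq_mul]
  -- clear the denominators
  set D : ℕ := ∏ a, (y a).den with hD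
  have hD0 : (0 : ℝ) < D := by
    rw [hD]
    exact_mod_cast Finset.prod_pos fun a _ => (y a).den_pos
  have hv : ∀ a, ∃ z : ℤ, (z : ℝ) = D * y' a := by
    intro a
    obtain ⟨d, hd⟩ : (y a).den ∣ D := Finset.dvd_prod_of_mem _ (Finset.mem_univ a)
    refine ⟨d * (y a).num, ?_⟩
    have h1 : ((y a).num : ℚ) = (y a).den * y a := by
      rw [mul_comm]
      exact (Rat.mul_den_eq_num (y a)).symm
    have h2 : (((d * (y a).num : ℤ)) : ℚ) = (D : ℚ) * y a := by
      rw [hd]
      push_cast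
      rw [h1]
      ring
    have h3 := congrArg (fun q : ℚ => (q : ℝ)) h2
    push_cast at h3
    rw [hy']
    push_cast
    exact h3
  choose v hv using hv
  have hrv : rv v = (D : ℝ) • y' := by
    funext a
    show (v a : ℝ) = D * y' a
    exact hv a
  refine ⟨v, ?_, ?_⟩
  · rw [hrv, bf_smul_left, hyκ, mul_zero]
  · have h1 : (0 : ℝ) < ((bf Q v v : ℤ) : ℝ) := by
      rw [← bf_rv, hrv, bf_smul_left, bf_smul_right]
      positivity
    exact_mod_cast h1

/-- The real vector `κ` is a combination of the rational vectors of its coordinates. -/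
theorem mem_span_co (κ : Fin r → ℝ) :
    κ ∈ Submodule.span ℝ (Set.range fun j => co j κ) := by
  classical
  set S : Finset (Basis.ofVectorSpaceIndex ℚ ℝ) :=
    Finset.univ.biUnion fun a => (qb.repr (κ a)).support with hS
  have h1 : κ = ∑ j ∈ S, (qb j : ℝ) • co j κ := by
    funext a
    rw [Finset.sum_apply]
    have h2 : κ a = ∑ j ∈ S, qb.repr (κ a) j • qb j := by
      conv_lhs => rw [← qb.linearCombination_repr (κ a)]
      rw [Finsupp.linearCombination_apply]
      refine Finsupp.sum_of_support_subset _ ?_ _ (fun j _ => zero_smul _ _)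
      exact Finset.subset_biUnion_of_mem (fun a => (qb.repr (κ a)).support) (Finset.mem_univ a)
    refine h2.trans (Finset.sum_congr rfl fun j _ => ?_)
    rw [Pi.smul_apply, smul_eq_mul, Rat.smul_def, mul_comm]
    rfl
  have h3 : ∑ j ∈ S, (qb j : ℝ) • co j κ ∈ Submodule.span ℝ (Set.range fun j => co j κ) :=
    Submodule.sum_mem _ fun j _ => Submodule.smul_mem _ _ (Submodule.subset_span ⟨j, rfl⟩)
  rwa [← h1] at h3

/-- The real combination with the coefficients `c` of the rational vectors of the coordinates. -/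
noncomputable def comb (c : Basis.ofVectorSpaceIndex ℚ ℝ →₀ ℝ) (κ : Fin r → ℝ) : Fin r → ℝ :=
  c.sum fun j t => t • co j κ

theorem comb_mulVec (c : Basis.ofVectorSpaceIndex ℚ ℝ →₀ ℝ) (γ : Matrix (Fin r) (Fin r) ℤ)
    (κ : Fin r → ℝ) :
    comb c (γ.map (Int.castRingHom ℝ) *ᵥ κ) = γ.map (Int.castRingHom ℝ) *ᵥ comb c κ := by
  unfold comb Finsupp.sum
  rw [Matrix.mulVec_sum]
  refine Finset.sum_congr rfl fun j _ => ?_
  show c j • co j (γ.map (Int.castRingHom ℝ) *ᵥ κ) =
    γ.map (Int.castRingHom ℝ) *ᵥ (c j • co j κ)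
  rw [co_mulVec, Matrix.mulVec_smul]

/-- If there is no positive integral vector orthogonal to `κ`, then there is a combination `u ≠ 0` of
the rational vectors of the coordinates of `κ` which is orthogonal to `κ` with `q(u, u) ≥ 0`. -/
theorem exists_comb (hQ : Qᵀ = Q) {κ : Fin r → ℝ} {σ : Fin r → ℂ} (h0 : bf Q σ σ = 0)
    (hp : 0 < (bf Q σ (star σ)).re) (hκ : bf Q (cx κ) σ = 0)
    (hno : ¬∃ v : Fin r → ℤ, bf Q (rv v) κ = 0 ∧ 0 < bf Q v v) :
    ∃ c, comb c κ ≠ 0 ∧ bf Q (comb c κ) κ = 0 ∧ 0 ≤ bf Q (comb c κ) (comb c κ) := by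
  classical
  set x : Fin r → ℝ := fun a => (σ a).re with hx
  have hxx : 0 < bf Q x x := by
    have := bf_self_re hQ h0
    linarith
  have hxκ : bf Q x κ = 0 := by
    have h2 := congrArg Complex.re hκ
    rw [bf_eq_sum, Complex.re_sum] at h2
    simp only [Complex.re_sum, Complex.zero_re] at h2
    rw [bf_comm hQ, bf_eq_sum, ← h2]
    refine Finset.sum_congr rfl fun a _ => Finset.sum_congr rfl fun b _ => ?_
    have h3 : cx κ a * ((Q a b : ℤ) : ℂ) = ((κ a * ((Q a b : ℤ) : ℝ) : ℝ) : ℂ) := by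
      simp [cx]
    rw [h3, Complex.re_ofReal_mul]
  set W : Submodule ℝ (Fin r → ℝ) := Submodule.span ℝ (Set.range fun j => co j κ) with hW
  have hκW : κ ∈ W := mem_span_co κ
  have key : ∃ u ∈ W, u ≠ 0 ∧ bf Q u κ = 0 ∧ 0 ≤ bf Q u u := by
    by_contra hcon
    have hneg : ∀ u ∈ W, bf Q u κ = 0 → u ≠ 0 → bf Q u u < 0 := by
      intro u hu h1 h2
      by_contra h3
      exact hcon ⟨u, hu, h2, h1, not_lt.1 h3⟩
    set Bf : LinearMap.BilinForm ℝ (Fin r → ℝ) := Matrix.toBilin' (Q.map (Int.castRingHom ℝ))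
      with hBf
    have hBfa : ∀ u v, Bf u v = bf Q u v := fun u v => Matrix.toBilin'_apply' _ _ _
    set W₀ : Submodule ℝ (Fin r → ℝ) := W ⊓ LinearMap.ker (Bf κ) with hW₀
    have hmem : ∀ u, u ∈ W₀ ↔ u ∈ W ∧ bf Q u κ = 0 := by
      intro u
      rw [hW₀, Submodule.mem_inf, LinearMap.mem_ker, hBfa, bf_comm hQ κ u]
    rcases eq_or_ne κ 0 with hκ0 | hκ0
    · refine hno (exists_int_vector (x := x) (fun j => ?_) hxx)
      have : co j κ = 0 := by
        funext a
        rw [hκ0]
        simp [co]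
      rw [this, bf_zero_right]
    have hκκ : bf Q κ κ ≠ 0 := by
      intro h1
      exact absurd (hneg κ hκW h1 hκ0) (by rw [h1]; exact lt_irrefl _)
    have hsymm : Bf.IsSymm := ⟨fun u v => by
      rw [hBfa, hBfa]
      simp [bf_comm hQ u v]⟩
    have hdef : ∀ u ∈ W₀, bf Q u u = 0 → u = 0 := by
      intro u hu h1
      by_contra h2
      have := hneg u ((hmem u).1 hu).1 ((hmem u).1 hu).2 h2
      linarith
    have hcompl : IsCompl W₀ (Bf.orthogonal W₀) := by
      refine LinearMap.BilinForm.isCompl_orthogonal_of_restrict_nondegenerate hsymm.isRefl ?_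
      constructor
      · rintro ⟨u, hu⟩ h1
        apply Subtype.ext
        refine hdef u hu ?_
        have := h1 ⟨u, hu⟩
        rw [← hBfa]
        exact this
      · rintro ⟨u, hu⟩ h1
        apply Subtype.ext
        refine hdef u hu ?_
        have := h1 ⟨u, hu⟩
        rw [← hBfa]
        exact this
    obtain ⟨x₀, hx₀, x₁, hx₁, hxe⟩ := Submodule.mem_sup.1
      (show x ∈ W₀ ⊔ Bf.orthogonal W₀ by rw [hcompl.sup_eq_top]; trivial)
    have horth : ∀ u ∈ W₀, bf Q u x₁ = 0 := by
      intro u hu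
      have := LinearMap.BilinForm.mem_orthogonal_iff.1 hx₁ u hu
      rw [← hBfa]
      exact this
    have hx₁κ : bf Q x₁ κ = 0 := by
      have h1 : bf Q x κ = bf Q x₀ κ + bf Q x₁ κ := by rw [← hxe, bf_add_left]
      rw [hxκ, ((hmem x₀).1 hx₀).2] at h1
      linarith
    have hpos : 0 < bf Q x₁ x₁ := by
      have h1 : bf Q x x = bf Q x₀ x₀ + bf Q x₁ x₁ := by
        rw [← hxe, bf_add_left, bf_add_right, bf_add_right, bf_comm hQ x₁ x₀, horth x₀ hx₀]
        ring
      have h2 : bf Q x₀ x₀ ≤ 0 := by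
        rcases eq_or_ne x₀ 0 with h3 | h3
        · rw [h3, bf_zero_left]
        · exact (hneg x₀ ((hmem x₀).1 hx₀).1 ((hmem x₀).1 hx₀).2 h3).le
      linarith
    refine hno (exists_int_vector (x := x₁) (fun j => ?_) hpos)
    set w := co j κ with hw
    have hwW : w ∈ W := Submodule.subset_span ⟨j, rfl⟩
    set d : ℝ := bf Q w κ / bf Q κ κ with hd
    have h1 : w + (-d) • κ ∈ W₀ := by
      refine (hmem _).2 ⟨W.add_mem hwW (W.smul_mem _ hκW), ?_⟩
      rw [bf_add_left, bf_smul_left, hd]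
      field_simp
      ring
    have h2 := horth _ h1
    rw [bf_add_left, bf_smul_left, bf_comm hQ κ x₁, hx₁κ, mul_zero, add_zero] at h2
    rw [bf_comm hQ]
    exact h2
  obtain ⟨u, hu, h1, h2, h3⟩ := key
  obtain ⟨c, hc⟩ := Finsupp.mem_span_range_iff_exists_finsupp.1 hu
  have hc' : comb c κ = u := hc
  exact ⟨c, by rw [hc']; exact h1, by rw [hc']; exact h2, by rw [hc']; exact h3⟩

end H18.HK
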