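import Pool.Agent.H18.HK.Glob

/-!
# Twisting the period vectors so that the polarization becomes rational
-/

set_option autoImplicit false

namespace H18.HK

open Matrix Topology Filter Set H18.TF
open scoped Manifold ContDiff Polynomial

universe u v w x

section linear

variable {r : ℕ}

theorem rat_transpose_symm {φ : ℝ →ₗ[ℚ] ℚ} {S : Matrix (Fin r) (Fin r) ℝ} (hS : Sᵀ = S) :
    (rat φ S)ᵀ = rat φ S := by
  ext a b
  have h1 : S b a = S a b := congrFun (congrFun hS a) b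
  simp only [rat, Matrix.transpose_apply, Matrix.map_apply]
  rw [h1]

theorem spec_symm {φ : ℝ →ₗ[ℚ] ℚ} {q : ℝ[X]} {S : Matrix (Fin r) (Fin r) ℝ}
    (hg : Good φ q S) (hS : Sᵀ = S) (hu : IsUnit S.det) :
    (twist φ q S)ᵀ * S * twist φ q S = rat φ S ∧ IsUnit (twist φ q S).det := by
  constructor
  · have h1 : S * (S⁻¹ * rat φ S) = (S⁻¹ * rat φ S)ᵀ * S := by
      rw [Matrix.transpose_mul, rat_transpose_symm hS, Matrix.transpose_nonsing_inv, hS,
        ← Matrix.mul_assoc, Matrix.mul_nonsing_inv _ hu, Matrix.one_mul, Matrix.mul_assoc,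
        Matrix.nonsing_inv_mul _ hu, Matrix.mul_one]
    have h2 := semiconj_aeval h1 q
    rw [aeval_transpose] at h2
    have h3 : (twist φ q S)ᵀ * S = S * twist φ q S := h2.symm
    rw [h3, Matrix.mul_assoc, hg.1, ← Matrix.mul_assoc, Matrix.mul_nonsing_inv _ hu,
      Matrix.one_mul]
  · have h1 := congrArg Matrix.det hg.1
    rw [Matrix.det_mul] at h1
    have h2 : IsUnit ((twist φ q S).det * (twist φ q S).det) := by
      rw [h1]
      exact hg.2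
    exact isUnit_of_mul_isUnit_left h2

theorem rf_smul (c : ℝ) (S : Matrix (Fin r) (Fin r) ℝ) (x y : Fin r → ℂ) :
    rf (c • S) x y = c * rf S x y := by
  unfold rf
  have : (c • S).map (algebraMap ℝ ℂ) = (c : ℂ) • S.map (algebraMap ℝ ℂ) := by
    ext a b
    simp
  rw [this, Matrix.smul_mulVec, dotProduct_smul, smul_eq_mul]

theorem rf_conj (S T : Matrix (Fin r) (Fin r) ℝ) (x y : Fin r → ℂ) :
    rf (Tᵀ * S * T) x y =
      rf S (T.map (algebraMap ℝ ℂ) *ᵥ x) (T.map (algebraMap ℝ ℂ) *ᵥ y) := by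
  unfold rf
  rw [Matrix.map_mul, Matrix.map_mul, Matrix.transpose_map, ← Matrix.mulVec_mulVec,
    ← Matrix.mulVec_mulVec, Matrix.dotProduct_mulVec x, Matrix.vecMul_transpose]

theorem rf_rl (Q : Matrix (Fin r) (Fin r) ℤ) (x y : Fin r → ℂ) : rf (rl Q) x y = bf Q x y := by
  unfold rf bf
  have : (rl Q).map (algebraMap ℝ ℂ) = Q.map (Int.castRingHom ℂ) := by
    ext a b
    simp [rl]
  rw [this]

theorem map_mulVec_cx (G : Matrix (Fin r) (Fin r) ℝ) (x : Fin r → ℝ) :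
    G.map (algebraMap ℝ ℂ) *ᵥ cx x = cx (G *ᵥ x) := by
  funext a
  simp [cx, Matrix.mulVec, dotProduct]

theorem star_map_mulVec (G : Matrix (Fin r) (Fin r) ℝ) (x : Fin r → ℂ) :
    star (G.map (algebraMap ℝ ℂ) *ᵥ x) = G.map (algebraMap ℝ ℂ) *ᵥ star x := by
  funext a
  simp [Matrix.mulVec, dotProduct]

theorem map_inv_mulVec {T : Matrix (Fin r) (Fin r) ℝ} (hT : IsUnit T.det) (x : Fin r → ℂ) :
    T.map (algebraMap ℝ ℂ) *ᵥ (T⁻¹.map (algebraMap ℝ ℂ) *ᵥ x) = x := by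
  rw [Matrix.mulVec_mulVec, ← Matrix.map_mul, Matrix.mul_nonsing_inv _ hT]
  simp

variable {Q : Matrix (Fin r) (Fin r) ℤ} {D : ℝ} {S T : Matrix (Fin r) (Fin r) ℝ}

theorem bf_twist (hQ : rl Q = D • (Tᵀ * S * T)) (hT : IsUnit T.det) (x y : Fin r → ℂ) :
    bf Q (T⁻¹.map (algebraMap ℝ ℂ) *ᵥ x) (T⁻¹.map (algebraMap ℝ ℂ) *ᵥ y) = D * rf S x y := by
  rw [← rf_rl, hQ, rf_smul, rf_conj, map_inv_mulVec hT, map_inv_mulVec hT]

theorem bf_twist_real (hQ : rl Q = D • (Tᵀ * S * T)) (x y : Fin r → ℝ) :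
    bf Q x y = D * ((T *ᵥ x) ⬝ᵥ (S *ᵥ (T *ᵥ y))) := by
  have h1 : bf Q x y = x ⬝ᵥ (rl Q *ᵥ y) := rfl
  rw [h1, hQ, Matrix.smul_mulVec, dotProduct_smul, smul_eq_mul, ← Matrix.mulVec_mulVec,
    ← Matrix.mulVec_mulVec, Matrix.dotProduct_mulVec x, Matrix.vecMul_transpose]

/-- An integral multiple of the rational form. -/
noncomputable def intq (D : ℕ) (R : Matrix (Fin r) (Fin r) ℝ) : Matrix (Fin r) (Fin r) ℤ :=
  fun a b => ⌊(D : ℝ) * R a b⌋

theorem rl_intq {D : ℕ} {R : Matrix (Fin r) (Fin r) ℝ} {Q : Matrix (Fin r) (Fin r) ℤ}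
    (h : rl Q = (D : ℝ) • R) : intq D R = Q := by
  ext a b
  have h1 : (Q a b : ℝ) = D * R a b := congrFun (congrFun h a) b
  rw [intq, ← h1, Int.floor_intCast]

theorem exists_den (φ : ℝ →ₗ[ℚ] ℚ) (S : Matrix (Fin r) (Fin r) ℝ) :
    ∃ D : ℕ, 0 < D ∧ ∃ Q : Matrix (Fin r) (Fin r) ℤ, rl Q = (D : ℝ) • rat φ S := by
  set D : ℕ := ∏ a, ∏ b, (φ (S a b)).den with hD
  refine ⟨D, Finset.prod_pos fun a _ => Finset.prod_pos fun b _ => (φ (S a b)).den_pos, ?_⟩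
  have hv : ∀ a b, ∃ z : ℤ, (z : ℝ) = D * ((φ (S a b) : ℚ) : ℝ) := by
    intro a b
    obtain ⟨d, hd⟩ : (φ (S a b)).den ∣ D :=
      (Finset.dvd_prod_of_mem (fun b => (φ (S a b)).den) (Finset.mem_univ b)).trans
        (Finset.dvd_prod_of_mem (fun a => ∏ b, (φ (S a b)).den) (Finset.mem_univ a))
    refine ⟨d * (φ (S a b)).num, ?_⟩
    have h1 : ((φ (S a b)).num : ℚ) = (φ (S a b)).den * φ (S a b) := by
      rw [mul_comm]
      exact (Rat.mul_den_eq_num _).symm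
    have h2 : (((d * (φ (S a b)).num : ℤ)) : ℚ) = (D : ℚ) * φ (S a b) := by
      rw [hd]
      push_cast
      rw [h1]
      ring
    have h3 := congrArg (fun q : ℚ => (q : ℝ)) h2
    push_cast at h3
    push_cast
    exact h3
  choose z hz using hv
  refine ⟨z, ?_⟩
  ext a b
  exact hz a b

end linear

variable {n r : ℕ} {B : Type u} [TopologicalSpace B] [ChartedSpace (Fin n → ℂ) B] {ι : Type v}
  {Y : PeriodFamily n B r ι}

namespace PeriodFamily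

variable {S : ι → B → Matrix (Fin r) (Fin r) ℝ} {κ : ι → B → Fin r → ℝ}

namespace IsPolarization

theorem isUnit (h : Y.IsPolarization S κ) {i : ι} {p : B} (hp : p ∈ Y.U i) :
    IsUnit (S i p).det := by
  rw [isUnit_iff_ne_zero]
  intro hdet
  obtain ⟨y, hy, hy0⟩ := Matrix.exists_mulVec_eq_zero_iff.2 hdet
  have hy1 : y ᵥ* S i p = 0 := by
    rw [← Matrix.mulVec_transpose, h.symm i p hp, hy0]
  have h1 := h.negative i p hp y hy ?_ ?_
  · rw [hy0, dotProduct_zero] at h1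
    exact lt_irrefl _ h1
  · rw [Matrix.dotProduct_mulVec, hy1, zero_dotProduct]
  · unfold rf
    rw [Matrix.dotProduct_mulVec]
    have h2 : cx y ᵥ* (S i p).map (algebraMap ℝ ℂ) = cx (y ᵥ* S i p) := by
      funext a
      simp [cx, Matrix.vecMul, dotProduct]
    rw [h2, hy1]
    have h3 : (cx (0 : Fin r → ℝ)) = 0 := by
      funext a
      simp [cx]
    rw [h3, zero_dotProduct]

/-- By connectedness, all the forms of a real polarization are equivalent. -/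
theorem conj [PreconnectedSpace B] (h : Y.IsPolarization S κ) {i₀ : ι} {p₀ : B}
    (hp₀ : p₀ ∈ Y.U i₀) : ∀ i, ∀ p ∈ Y.U i, ∃ γ : Matrix (Fin r) (Fin r) ℤ,
      IsUnit γ.det ∧ S i p = (rl γ)ᵀ * S i₀ p₀ * rl γ := by
  set Z : Set B := {p | ∃ i, p ∈ Y.U i ∧ ∃ γ : Matrix (Fin r) (Fin r) ℤ,
      IsUnit γ.det ∧ S i p = (rl γ)ᵀ * S i₀ p₀ * rl γ} with hZ
  have hany : ∀ p ∈ Z, ∀ j, p ∈ Y.U j → ∃ γ : Matrix (Fin r) (Fin r) ℤ,
      IsUnit γ.det ∧ S j p = (rl γ)ᵀ * S i₀ p₀ * rl γ := by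
    rintro p ⟨i, hi, γ, hγ, h1⟩ j hj
    refine ⟨γ * Y.γ i j p, ?_, ?_⟩
    · rw [Matrix.det_mul]
      exact hγ.mul (Y.det_γ i j p ⟨hi, hj⟩)
    · rw [← h.eq_S i j p ⟨hi, hj⟩, h1]
      have h2 : rl (γ * Y.γ i j p) = rl γ * rl (Y.γ i j p) := Matrix.map_mul
      rw [h2, Matrix.transpose_mul]
      show (rl (Y.γ i j p))ᵀ * ((rl γ)ᵀ * S i₀ p₀ * rl γ) * rl (Y.γ i j p) = _
      simp only [Matrix.mul_assoc]
  have hnear : ∀ i, ∀ p ∈ Y.U i, ∀ᶠ p' in 𝓝 p, p' ∈ Y.U i ∧ S i p' = S i p := fun i p hp =>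
    Filter.Eventually.and ((isOpen_U i).mem_nhds hp) ((h.flat i p hp).mono fun _ hq => hq.1)
  have hopen : IsOpen Z := by
    rw [isOpen_iff_mem_nhds]
    rintro p ⟨i, hi, γ, hγ, h1⟩
    filter_upwards [hnear i p hi] with p' hp'
    exact ⟨i, hp'.1, γ, hγ, hp'.2.trans h1⟩
  have hclosed : IsClosed Z := by
    rw [← isOpen_compl_iff, isOpen_iff_mem_nhds]
    intro p hp
    obtain ⟨i, hi⟩ := Y.cover p
    filter_upwards [hnear i p hi] with p' hp' hmem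
    obtain ⟨γ, hγ, h1⟩ := hany p' hmem i hp'.1
    exact hp ⟨i, hi, γ, hγ, hp'.2.symm.trans h1⟩
  have huniv : Z = Set.univ :=
    IsClopen.eq_univ ⟨hclosed, hopen⟩ ⟨p₀, i₀, hp₀, 1, by simp, by simp [rl]⟩
  intro i p hp
  exact hany p (huniv ▸ Set.mem_univ p) i hp

/-- After a twist a real polarization becomes integral. -/
theorem exists_intPol [PreconnectedSpace B] [Nonempty B] (h : Y.IsPolarization S κ) :
    ∃ τ Q κ', Y.IntPol τ Q κ' := by
  obtain ⟨p₀⟩ := ‹Nonempty B›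
  obtain ⟨i₀, hp₀'⟩ := Y.cover p₀
  have hp₀ : p₀ ∈ Y.U i₀ := hp₀'
  obtain ⟨φ, q, hg₀⟩ := exists_good (h.isUnit hp₀)
  obtain ⟨D, hD, Q₀, hQ₀⟩ := exists_den φ (S i₀ p₀)
  have hD' : (0 : ℝ) < (D : ℝ) := by exact_mod_cast hD
  have hgood : ∀ i, ∀ p ∈ Y.U i, Good φ q (S i p) := by
    intro i p hp
    obtain ⟨γ, hγ, h1⟩ := h.conj hp₀ i p hp
    rw [h1]
    exact hg₀.conj hγ
  have hspec : ∀ i, ∀ p ∈ Y.U i, (twist φ q (S i p))ᵀ * S i p * twist φ q (S i p) =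
      rat φ (S i p) ∧ IsUnit (twist φ q (S i p)).det := fun i p hp =>
    spec_symm (hgood i p hp) (h.symm i p hp) (h.isUnit hp)
  have hint : ∀ i, ∀ p ∈ Y.U i, rl (intq D (rat φ (S i p))) = (D : ℝ) • rat φ (S i p) := by
    intro i p hp
    obtain ⟨γ, hγ, h1⟩ := h.conj hp₀ i p hp
    have h2 : rl (γᵀ * Q₀ * γ) = (D : ℝ) • rat φ (S i p) := by
      rw [h1, rat_conj, ← Matrix.smul_mul, ← Matrix.mul_smul, ← hQ₀]
      simp only [rl, Matrix.map_mul, Matrix.transpose_map]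
    rw [rl_intq h2, h2]
  have hint' : ∀ i, ∀ p ∈ Y.U i, rl (intq D (rat φ (S i p))) =
      (D : ℝ) • ((twist φ q (S i p))ᵀ * S i p * twist φ q (S i p)) := fun i p hp => by
    rw [hint i p hp, (hspec i p hp).1]
  have hrlinj : ∀ Q Q' : Matrix (Fin r) (Fin r) ℤ, rl Q = rl Q' → Q = Q' := by
    intro Q Q' hQQ
    ext a b
    have h1 : (Q a b : ℝ) = (Q' a b : ℝ) := congrFun (congrFun hQQ a) b
    exact_mod_cast h1
  -- the relation of the twists
  have htw : ∀ i j, ∀ p ∈ Y.U i ∩ Y.U j, (twist φ q (S i p))⁻¹ * rl (Y.γ i j p) =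
      rl (Y.γ i j p) * (twist φ q (S j p))⁻¹ := by
    intro i j p hp
    have h1 := twist_conj (φ := φ) (q := q) (Ω := S i p) (Y.det_γ i j p hp)
    have h2 : (rl (Y.γ i j p))ᵀ * S i p * rl (Y.γ i j p) = S j p := h.eq_S i j p hp
    rw [h2] at h1
    have hui := (hspec i p hp.1).2
    have huj := (hspec j p hp.2).2
    calc (twist φ q (S i p))⁻¹ * rl (Y.γ i j p) = (twist φ q (S i p))⁻¹ *
          (rl (Y.γ i j p) * twist φ q (S j p)) * (twist φ q (S j p))⁻¹ := by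
          rw [Matrix.mul_assoc, Matrix.mul_assoc, Matrix.mul_nonsing_inv _ huj, Matrix.mul_one]
      _ = rl (Y.γ i j p) * (twist φ q (S j p))⁻¹ := by
          rw [h1, ← Matrix.mul_assoc, Matrix.nonsing_inv_mul _ hui, Matrix.one_mul]
  refine ⟨fun i p => (twist φ q (S i p))⁻¹.map (algebraMap ℝ ℂ) *ᵥ Y.σ i p,
    fun i p => intq D (rat φ (S i p)), fun i p => (twist φ q (S i p))⁻¹ *ᵥ κ i p,
    ⟨?_, ?_, ?_, ?_, ?_, ?_, ?_, ?_, ?_, ?_⟩⟩
  · intro i a p hp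
    have h2 : (fun p' => ((twist φ q (S i p'))⁻¹.map (algebraMap ℝ ℂ) *ᵥ Y.σ i p') a) =ᶠ[𝓝 p]
        fun p' => ((twist φ q (S i p))⁻¹.map (algebraMap ℝ ℂ) *ᵥ Y.σ i p') a := by
      filter_upwards [h.flat i p hp] with p' hp'
      rw [hp'.1]
    have h4 : MDifferentiableAt 𝓘(ℂ, Fin n → ℂ) 𝓘(ℂ, Fin r → ℂ) (Y.σ i) p :=
      mdifferentiableAt_pi fun a => (Y.holo_σ i a).mdifferentiableAt ((isOpen_U i).mem_nhds hp)
    have h8 : DifferentiableAt ℂ (fun z : Fin r → ℂ =>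
        ((twist φ q (S i p))⁻¹.map (algebraMap ℝ ℂ) *ᵥ z) a) (Y.σ i p) := by
      simp only [Matrix.mulVec, dotProduct]
      fun_prop
    exact ((h8.mdifferentiableAt.comp p h4).congr_of_eventuallyEq h2).mdifferentiableWithinAt
  · intro i j p hp
    have h1 := congrArg (fun M => M.map (algebraMap ℝ ℂ)) (htw i j p hp)
    simp only [Matrix.map_mul] at h1
    have h2 : (rl (Y.γ i j p)).map (algebraMap ℝ ℂ) = (Y.γ i j p).map (Int.castRingHom ℂ) := by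
      ext a b
      simp [rl]
    rw [h2] at h1
    show (twist φ q (S i p))⁻¹.map (algebraMap ℝ ℂ) *ᵥ Y.σ i p = _
    rw [Y.change i j p hp, Matrix.mulVec_smul, Matrix.mulVec_mulVec, h1, ← Matrix.mulVec_mulVec]
  · intro i p hp
    filter_upwards [h.flat i p hp] with p' hp'
    rw [hp'.1, hp'.2]
    exact ⟨rfl, rfl⟩
  · intro i p hp
    apply hrlinj
    have h1 : rl (intq D (rat φ (S i p)))ᵀ = (rl (intq D (rat φ (S i p))))ᵀ := rfl
    rw [h1, hint i p hp, Matrix.transpose_smul, rat_transpose_symm (h.symm i p hp)]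
  · intro i j p hp
    apply hrlinj
    have h1 : rl ((Y.γ i j p)ᵀ * intq D (rat φ (S i p)) * Y.γ i j p) =
        (rl (Y.γ i j p))ᵀ * rl (intq D (rat φ (S i p))) * rl (Y.γ i j p) := by
      simp only [rl, Matrix.map_mul, Matrix.transpose_map]
    have h2 : (rl (Y.γ i j p))ᵀ * S i p * rl (Y.γ i j p) = S j p := h.eq_S i j p hp
    rw [h1, hint i p hp.1, hint j p hp.2, Matrix.mul_smul, Matrix.smul_mul, ← rat_conj, h2]
  · intro i j p hp
    show (twist φ q (S i p))⁻¹ *ᵥ κ i p = rl (Y.γ i j p) *ᵥ ((twist φ q (S j p))⁻¹ *ᵥ κ j p)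
    rw [h.eq_κ i j p hp, Matrix.mulVec_mulVec, Matrix.mulVec_mulVec]
    congr 1
    exact htw i j p hp
  · intro i p hp
    show bf _ ((twist φ q (S i p))⁻¹.map (algebraMap ℝ ℂ) *ᵥ Y.σ i p) _ = 0
    rw [bf_twist (hint' i p hp) (hspec i p hp).2, h.isotropic i p hp, mul_zero]
  · intro i p hp
    show 0 < (bf _ ((twist φ q (S i p))⁻¹.map (algebraMap ℝ ℂ) *ᵥ Y.σ i p)
      (star ((twist φ q (S i p))⁻¹.map (algebraMap ℝ ℂ) *ᵥ Y.σ i p))).re
    rw [star_map_mulVec, bf_twist (hint' i p hp) (hspec i p hp).2, Complex.re_ofReal_mul]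
    exact mul_pos hD' (h.positive i p hp)
  · intro i p hp
    show bf _ (cx ((twist φ q (S i p))⁻¹ *ᵥ κ i p))
      ((twist φ q (S i p))⁻¹.map (algebraMap ℝ ℂ) *ᵥ Y.σ i p) = 0
    rw [← map_mulVec_cx, bf_twist (hint' i p hp) (hspec i p hp).2, h.orthogonal i p hp, mul_zero]
  · intro i p hp x hx h1 h2
    have hT := (hspec i p hp).2
    set T := twist φ q (S i p) with hTdef
    have hxT : cx x = T⁻¹.map (algebraMap ℝ ℂ) *ᵥ cx (T *ᵥ x) := by
      rw [map_mulVec_cx, Matrix.mulVec_mulVec, Matrix.nonsing_inv_mul _ hT, Matrix.one_mulVec]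
    have hTx : T *ᵥ x ≠ 0 := by
      intro h3
      apply hx
      have h4 : T⁻¹ *ᵥ (T *ᵥ x) = x := by
        rw [Matrix.mulVec_mulVec, Matrix.nonsing_inv_mul _ hT, Matrix.one_mulVec]
      rw [← h4, h3, Matrix.mulVec_zero]
    have h3 : bf (intq D (rat φ (S i p))) x (T⁻¹ *ᵥ κ i p) = 0 := h1
    have h4 : bf (intq D (rat φ (S i p))) (cx x) (T⁻¹.map (algebraMap ℝ ℂ) *ᵥ Y.σ i p) = 0 := h2
    have h6 : T *ᵥ (T⁻¹ *ᵥ κ i p) = κ i p := by
      rw [Matrix.mulVec_mulVec, Matrix.mul_nonsing_inv _ hT, Matrix.one_mulVec]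
    rw [bf_twist_real (hint' i p hp), ← hTdef, h6] at h3
    rw [hxT, bf_twist (hint' i p hp) hT] at h4
    have h5 := h.negative i p hp (T *ᵥ x) hTx ((mul_eq_zero.1 h3).resolve_left hD'.ne')
      ((mul_eq_zero.1 h4).resolve_left (by exact_mod_cast hD'.ne'))
    show bf (intq D (rat φ (S i p))) x x < 0
    rw [bf_twist_real (hint' i p hp)]
    exact mul_neg_of_pos_of_neg hD' h5

/-- At each point there is a section of a power of `λ` which does not vanish there. -/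
theorem exists_section [PreconnectedSpace B] (h : Y.IsPolarization S κ) (p : B) :
    ∃ k, 1 ≤ k ∧ ∃ s, Y.IsSectionOf Y.t k s ∧ ∃ i, p ∈ Y.U i ∧ s i p ≠ 0 := by
  have : Nonempty B := ⟨p⟩
  obtain ⟨τ, Q, κ', h'⟩ := h.exists_intPol
  exact h'.exists_section p

end IsPolarization

end PeriodFamily

end H18.HK
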